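import Pool.Agent.Helper27.UC.Goals6

/-!
PROJECT UC (MP_d3128a_ag), EMP2 (helper90): emptiness at the second level of gluing.
-/

set_option autoImplicit false

noncomputable section

namespace Pool.Agent.Helper90.UC.EMP2

open Pool.Agent.Helper97.Tate Pool.Agent.Helper1.All
open Pool.Agent.Helper27.UC

theorem fil_same (i : ℕ) (f : ℕ → ℕ) (M : Multiset ℕ) :
    Multiset.card ((M.map fun v => (i, f v)).filter fun p : ℕ × ℕ => p.1 = i) =
      Multiset.card M := by
  rw [Multiset.filter_eq_self.mpr, Multiset.card_map]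
  intro p hp
  obtain ⟨v, _, rfl⟩ := Multiset.mem_map.mp hp
  rfl

theorem fil_ne (i j : ℕ) (h : i ≠ j) (f : ℕ → ℕ) (M : Multiset ℕ) :
    Multiset.card ((M.map fun v => (i, f v)).filter fun p : ℕ × ℕ => p.1 = j) = 0 := by
  rw [Multiset.filter_eq_nil.mpr]
  · rfl
  intro p hp
  obtain ⟨v, _, rfl⟩ := Multiset.mem_map.mp hp
  exact h

/-- the marked points -/
def TT (x : ℕ) (A B l' l : Multiset ℕ) : Multiset (ℕ × ℕ) :=
  (0, x) ::ₘ (A.map (fun v => (0, 2 * v + 1)) + B.map (fun v => (0, 2 * v)) +
    (l'.map (fun v => (1, 2 * v)) + l.map (fun v => (2, v))))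

/-- the weights -/
def wt (i : ℕ) : ℕ := if i = 0 then 4 else if i = 1 then 2 else 1

theorem TT_snd (x : ℕ) (A B l' l : Multiset ℕ) : (TT x A B l' l).map Prod.snd =
    x ::ₘ (A.map (fun v => 2 * v + 1) + B.map (fun v => 2 * v) + (l'.map (fun v => 2 * v) + l)) := by
  unfold TT
  simp only [Multiset.map_cons, Multiset.map_add, Multiset.map_map, Function.comp_def,
    Multiset.map_id']

theorem sum_mul (k : ℕ) (M : Multiset ℕ) : (M.map fun v => k * v).sum = k * M.sum := by
  induction M using Multiset.induction_on with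
  | empty => simp
  | cons a M ih => simp [ih, mul_add]

theorem TT_sum (x : ℕ) (A B l' l : Multiset ℕ) :
    ((TT x A B l' l).map fun p => wt p.1 * p.2).sum =
      4 * x + (8 * A.sum + 4 * Multiset.card A + 8 * B.sum + (4 * l'.sum + l.sum)) := by
  unfold TT
  simp only [Multiset.map_cons, Multiset.map_add, Multiset.map_map, Function.comp_def,
    Multiset.sum_cons, Multiset.sum_add]
  have h0 : ∀ M : Multiset ℕ, (M.map fun v => wt 0 * (2 * v + 1)).sum =
      8 * M.sum + 4 * Multiset.card M := by
    intro M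
    induction M using Multiset.induction_on with
    | empty => simp
    | cons a M ih =>
      rw [Multiset.map_cons, Multiset.sum_cons, ih, Multiset.sum_cons, Multiset.card_cons]
      simp only [wt, if_true]
      ring
  have h1 : ∀ M : Multiset ℕ, (M.map fun v => wt 0 * (2 * v)).sum = 8 * M.sum := by
    intro M
    rw [← sum_mul]
    refine congrArg Multiset.sum (Multiset.map_congr rfl fun v _ => ?_)
    simp only [wt, if_true]
    ring
  have h2 : ∀ M : Multiset ℕ, (M.map fun v => wt 1 * (2 * v)).sum = 4 * M.sum := by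
    intro M
    rw [← sum_mul]
    refine congrArg Multiset.sum (Multiset.map_congr rfl fun v _ => ?_)
    simp only [wt]
    norm_num
    ring
  have h3 : ∀ M : Multiset ℕ, (M.map fun v => wt 2 * v).sum = M.sum := by
    intro M
    have h : (M.map fun v => wt 2 * v) = M.map fun v => v :=
      Multiset.map_congr rfl fun v _ => by simp only [wt]; norm_num
    rw [h, Multiset.map_id']
  rw [h0, h1, h2, h3]
  simp only [wt, if_true]

theorem TT_mem (x : ℕ) (A B l' l : Multiset ℕ) :
    ∀ p ∈ TT x A B l' l, p.1 ∈ Finset.range 3 := by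
  intro p hp
  unfold TT at hp
  simp only [Multiset.mem_cons, Multiset.mem_add, Multiset.mem_map] at hp
  rcases hp with rfl | (⟨v, _, rfl⟩ | ⟨v, _, rfl⟩) | ⟨v, _, rfl⟩ | ⟨v, _, rfl⟩ <;> simp

theorem TT_0 (x : ℕ) (A B l' l : Multiset ℕ) :
    Multiset.card ((TT x A B l' l).filter fun p => p.1 = 0) =
      Multiset.card A + Multiset.card B + 1 := by
  unfold TT
  rw [Multiset.filter_cons_of_pos _ (by rfl), Multiset.card_cons, Multiset.filter_add,
    Multiset.filter_add, Multiset.filter_add, Multiset.card_add, Multiset.card_add,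
    Multiset.card_add, fil_same 0 (fun v => 2 * v + 1), fil_same 0 (fun v => 2 * v),
    fil_ne 1 0 (by norm_num) (fun v => 2 * v), fil_ne 2 0 (by norm_num) (fun v => v)]

theorem TT_1 (x : ℕ) (A B l' l : Multiset ℕ) :
    Multiset.card ((TT x A B l' l).filter fun p => p.1 = 1) = Multiset.card l' := by
  unfold TT
  rw [Multiset.filter_cons_of_neg _ (by norm_num), Multiset.filter_add,
    Multiset.filter_add, Multiset.filter_add, Multiset.card_add, Multiset.card_add,
    Multiset.card_add, fil_ne 0 1 (by norm_num) (fun v => 2 * v + 1),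
    fil_ne 0 1 (by norm_num) (fun v => 2 * v),
    fil_same 1 (fun v => 2 * v), fil_ne 2 1 (by norm_num) (fun v => v)]
  omega

theorem TT_2 (x : ℕ) (A B l' l : Multiset ℕ) :
    Multiset.card ((TT x A B l' l).filter fun p => p.1 = 2) = Multiset.card l := by
  unfold TT
  rw [Multiset.filter_cons_of_neg _ (by norm_num), Multiset.filter_add,
    Multiset.filter_add, Multiset.filter_add, Multiset.card_add, Multiset.card_add,
    Multiset.card_add, fil_ne 0 2 (by norm_num) (fun v => 2 * v + 1),
    fil_ne 0 2 (by norm_num) (fun v => 2 * v),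
    fil_ne 1 2 (by norm_num) (fun v => 2 * v), fil_same 2 (fun v => v)]
  omega

theorem sum_nsmul4 (M : Multiset ℕ) : (4 • M).sum = 4 * M.sum := by
  rw [Multiset.sum_nsmul]; rfl

theorem card_nsmul4 (M : Multiset ℕ) : Multiset.card (4 • M) = 4 * Multiset.card M := by
  rw [Multiset.card_nsmul]

/-- a lower bound for a sum -/
theorem sum_ge (m b : ℕ) (M : Multiset ℕ) (h : ∀ v ∈ M, m ≤ v + b) :
    Multiset.card M * m ≤ M.sum + Multiset.card M * b := by
  induction M using Multiset.induction_on with
  | empty => simp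
  | cons a M ih =>
    have h1 := ih fun v hv => h v (Multiset.mem_cons_of_mem hv)
    have h2 := h a (Multiset.mem_cons_self a M)
    rw [Multiset.sum_cons, Multiset.card_cons, Nat.succ_mul, Nat.succ_mul]
    omega

theorem ax1 (x n : ℕ) (h : 25 * x ^ 2 ≤ n) (hx : 2 ≤ x) : 50 * x ≤ n := by nlinarith
theorem ax2 (x n : ℕ) (h : n ≤ 32 * x) : n ≤ (10 * (x * 4)) ^ 2 := by
  have h1 : (10 * (x * 4)) ^ 2 = 1600 * (x * x) := by ring
  have h2 : x ≤ x * x := Nat.le_mul_self x
  omega
theorem ax3 (x n : ℕ) (h : n ≤ 400 * x ^ 2) : n ≤ (10 * (x * 2)) ^ 2 := by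
  have h1 : (10 * (x * 2)) ^ 2 = 400 * x ^ 2 := by ring
  omega
theorem ax4 (x n : ℕ) (h : n ≤ 100 * x ^ 2) : n ≤ (10 * (x * 1)) ^ 2 := by
  have h1 : (10 * (x * 1)) ^ 2 = 100 * x ^ 2 := by ring
  omega

theorem t (hEMG : S_EMG) (hEMN : S_EMN) : S_EMP2 := by
  intro n m b q d N h l' l hH h1 h2 h3 h4 hN hd A B u hu
  obtain ⟨hcard, hel, hq, hn, hqn, hb, hm⟩ := hH
  have hcard' : 4 * (4 * Multiset.card h + Multiset.card l') + Multiset.card l = n := by
    rw [← hcard, Multiset.card_add, card_nsmul4, Multiset.card_add, card_nsmul4]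
  have hs := hEMN n m b q d (4 * Multiset.card h + Multiset.card l') (Multiset.card l)
    (4 • (4 • h + l') + l) ⟨hcard, hel, hq, hn, hqn, hb, hm⟩ hcard'.symm h1 hd
  -- the group
  have hcu : Multiset.card A + Multiset.card B + 1 = Multiset.card h := by
    have := congrArg Multiset.card hu
    rw [Multiset.card_cons, Multiset.card_add, Multiset.card_map] at this
    exact this
  have hsu : u + (A.sum + B.sum) = 2 * h.sum := by
    have := congrArg Multiset.sum hu
    rw [Multiset.sum_cons, Multiset.sum_add, sum_mul] at this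
    exact this
  -- `u`
  have hum : u ≤ 2 * m ∧ 0 < u := by
    have h5 : u ∈ h.map (fun v => 2 * v) := by rw [← hu]; exact Multiset.mem_cons_self _ _
    obtain ⟨v, hv, rfl⟩ := Multiset.mem_map.mp h5
    have h6 : v ∈ 4 • (4 • h + l') + l := by
      refine Multiset.mem_add.mpr (Or.inl ?_)
      rw [Multiset.mem_nsmul_of_ne_zero (by norm_num)]
      refine Multiset.mem_add.mpr (Or.inl ?_)
      rw [Multiset.mem_nsmul_of_ne_zero (by norm_num)]
      exact hv
    have h7 := hel v h6
    have h8 : n ≤ n ^ 5 := Nat.le_self_pow (by norm_num) n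
    omega
  obtain ⟨hum, hu0⟩ := hum
  set j := 4 * Multiset.card h + Multiset.card l' with hj
  set p := (N + B.sum) / u with hp
  -- `g`
  have hg : j * m ≤ (4 • h + l').sum + j * b := by
    have h5 := sum_ge m b (4 • h + l') (by
      intro v hv
      have h6 : v ∈ 4 • (4 • h + l') + l := by
        refine Multiset.mem_add.mpr (Or.inl ?_)
        rw [Multiset.mem_nsmul_of_ne_zero (by norm_num)]
        exact hv
      exact (hel v h6).2)
    rwa [Multiset.card_add, card_nsmul4, ← hj] at h5
  have hup : N + B.sum < u * (1 + p) := by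
    have h5 := Nat.div_add_mod (N + B.sum) u
    have h6 := Nat.mod_lt (N + B.sum) hu0
    rw [← hp] at h5
    have h7 : u * (1 + p) = u * p + u := by ring
    omega
  have hjn : 4 * j ≤ n := by omega
  have hp2 : 2 * j ≤ 4 * (1 + p) + 2 := by
    have h5 : j * m < 2 * m * (1 + p) + j * b := by
      calc j * m ≤ (4 • h + l').sum + j * b := hg
        _ ≤ N + j * b := by omega
        _ < u * (1 + p) + j * b := by omega
        _ ≤ 2 * m * (1 + p) + j * b :=
          Nat.add_le_add_right (Nat.mul_le_mul_right _ hum) _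
    have h6 : j * b ≤ m := by
      have h7 : j * b ≤ n * n := Nat.mul_le_mul (by omega) (by omega)
      have h8 : n * n ≤ n ^ 5 := by
        have h9 : n ^ 2 ≤ n ^ 5 := Nat.pow_le_pow_right (by omega) (by norm_num)
        rwa [sq] at h9
      omega
    have h7 : j * m < (2 * (1 + p) + 1) * m := by
      have h9 : (2 * (1 + p) + 1) * m = 2 * m * (1 + p) + m := by ring
      omega
    have h8 : j < 2 * (1 + p) + 1 := Nat.lt_of_mul_lt_mul_right h7
    omega
  -- the emptiness criterion
  have hW : n * d ^ 2 < ((TT (2 * u + 1 + p) A B l' l).map fun p => wt p.1 * p.2).sum ^ 2 := by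
    refine lt_of_lt_of_le hs (Nat.pow_le_pow_left ?_ 2)
    rw [TT_sum, Multiset.sum_add, sum_nsmul4, Multiset.sum_add, sum_nsmul4]
    omega
  have hc1 : 1600 ≤ n := by omega
  have hlc : 2 ≤ Multiset.card l := by
    by_contra hcon
    have h5 : Multiset.card l ≤ 1 := by omega
    have h6 : Multiset.card l ^ 2 ≤ 1 ^ 2 := Nat.pow_le_pow_left h5 2
    omega
  have hlc' : 2 ≤ Multiset.card l' := by
    by_contra hcon
    have h5 : Multiset.card l' ≤ 1 := by omega
    have h6 : Multiset.card l' ^ 2 ≤ 1 ^ 2 := Nat.pow_le_pow_left h5 2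
    omega
  have hh : n ≤ 32 * Multiset.card h := by
    have h5 := ax1 _ _ h1 hlc
    have h6 := ax1 _ _ h3 hlc'
    omega
  rw [← TT_snd]
  refine hEMG ℕ d 10 n (Finset.range 3) wt
    (fun i => if i = 0 then Multiset.card h else if i = 1 then Multiset.card l'
      else Multiset.card l) _ ⟨0, by simp⟩ (TT_mem _ _ _ _ _) ?_ (by norm_num) (by simp) ?_ ?_ hW
  · intro i hi
    have : i = 0 ∨ i = 1 ∨ i = 2 := by
      have := Finset.mem_range.mp hi
      omega
    rcases this with rfl | rfl | rfl
    · rw [TT_0, if_pos rfl, hcu]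
    · rw [TT_1, if_neg (by norm_num), if_pos rfl]
    · rw [TT_2, if_neg (by norm_num), if_neg (by norm_num)]
  · intro i hi
    have : i = 0 ∨ i = 1 ∨ i = 2 := by
      have := Finset.mem_range.mp hi
      omega
    rcases this with rfl | rfl | rfl
    · simp only [wt, if_true]
      exact ⟨by norm_num, by omega, by omega, ax2 _ _ hh⟩
    · have e1 : ¬ ((1 : ℕ) = 0) := by norm_num
      simp only [wt, e1, if_false, if_true]
      exact ⟨by norm_num, by omega, by omega, ax3 _ _ h4⟩
    · have e1 : ¬ ((2 : ℕ) = 0) := by norm_num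
      have e2 : ¬ ((2 : ℕ) = 1) := by norm_num
      simp only [wt, e1, e2, if_false]
      exact ⟨by norm_num, by omega, by omega, ax4 _ _ h2⟩
  · rw [Finset.sum_range_succ, Finset.sum_range_succ, Finset.sum_range_succ,
      Finset.sum_range_zero]
    have e1 : ¬ ((1 : ℕ) = 0) := by norm_num
    have e2 : ¬ ((2 : ℕ) = 0) := by norm_num
    have e3 : ¬ ((2 : ℕ) = 1) := by norm_num
    simp only [wt, e1, e2, e3, if_false, if_true]
    omega

end Pool.Agent.Helper90.UC.EMP2
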