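import Pool.Agent.Helper90.UC.FINA

/-!
PROJECT UC: monotony of the generic dimension; simple points (helper90).
-/

set_option autoImplicit false

noncomputable section

namespace Pool.Agent.Helper90.UC

open Module Pool.Agent.Helper97.Tate

open Pool.Agent.Helper27.UC (gd rp spc S_CNV)

open Pool.Agent.Helper90.UN (NonSp)

theorem gd_attain (d : ℕ) (l : Multiset ℕ) : ∃ L : Multiset ((Fin 3 → ℂ) × ℕ),
    L.map Prod.snd = l ∧ finrank ℂ (spc d L) ≤ gd d l := by
  have hne : {N | ∃ L : Multiset ((Fin 3 → ℂ) × ℕ), L.map Prod.snd = l ∧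
      finrank ℂ (spc d L) ≤ N}.Nonempty := by
    refine ⟨finrank ℂ (spc d (l.map fun x => ((0 : Fin 3 → ℂ), x))), _, ?_, le_rfl⟩
    rw [Multiset.map_map]
    simp
  exact Nat.sInf_mem hne

theorem gd_le (d : ℕ) (l : Multiset ℕ) (N : ℕ) (L : Multiset ((Fin 3 → ℂ) × ℕ))
    (hL : L.map Prod.snd = l) (h : finrank ℂ (spc d L) ≤ N) : gd d l ≤ N :=
  Nat.sInf_le ⟨L, hL, h⟩

theorem fin_Fm (d : ℕ) : FiniteDimensional ℂ (Fm ℂ d) := by
  have h5 : FiniteDimensional ℂ (MvPolynomial.homogeneousSubmodule (Fin 3) ℂ d) :=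
    Module.Finite.iff_fg.2 (MvPolynomial.homogeneousSubmodule_fg (σ := Fin 3) (R := ℂ) d)
  have h6 : Fm ℂ (d : ℤ) = MvPolynomial.homogeneousSubmodule (Fin 3) ℂ d := by
    unfold Fm
    rw [if_pos (by positivity)]
    simp
  rw [h6]
  exact h5

theorem fin_spc (d : ℕ) (L : Multiset ((Fin 3 → ℂ) × ℕ)) : FiniteDimensional ℂ (spc d L) := by
  have := fin_Fm d
  exact Submodule.finiteDimensional_of_le (inf_le_left : spc d L ≤ Fm ℂ d)

theorem gd_mono (d : ℕ) (l1 l2 : Multiset ℕ) : gd d (l1 + l2) ≤ gd d l1 := by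
  obtain ⟨L, hL, h⟩ := gd_attain d l1
  refine gd_le d _ _ (L + l2.map fun x => ((0 : Fin 3 → ℂ), x)) ?_ (le_trans ?_ h)
  · rw [Multiset.map_add, hL, Multiset.map_map]
    simp
  · have := fin_spc d L
    apply Submodule.finrank_mono
    unfold spc
    refine inf_le_inf_left _ ?_
    refine le_iInf₂ fun p hp => ?_
    exact iInf₂_le p (Multiset.mem_add.2 (Or.inl hp))

theorem gd_one (d : ℕ) (l : Multiset ℕ) : gd d (1 ::ₘ l) ≤ gd d l - 1 := by
  obtain ⟨L, hL, h⟩ := gd_attain d l
  have hfin := fin_spc d L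
  by_cases hb : spc d L = ⊥
  · refine gd_le d _ _ (((0 : Fin 3 → ℂ), 1) ::ₘ L) (by simp [hL]) ?_
    have h1 : spc d (((0 : Fin 3 → ℂ), 1) ::ₘ L) ≤ spc d L := by
      unfold spc
      refine inf_le_inf_left _ (le_iInf₂ fun p hp => ?_)
      exact iInf₂_le p (Multiset.mem_cons_of_mem hp)
    rw [hb, le_bot_iff] at h1
    rw [h1, finrank_bot]
    exact Nat.zero_le _
  · obtain ⟨z, hz, hz0⟩ := Submodule.exists_mem_ne_zero_of_ne_bot hb
    obtain ⟨P, hP⟩ : ∃ P : Fin 3 → ℂ, MvPolynomial.eval P z ≠ 0 := by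
      by_contra hcon
      push Not at hcon
      exact hz0 (MvPolynomial.funext fun P => by rw [hcon P, map_zero])
    refine gd_le d _ _ ((P, 1) ::ₘ L) (by simp [hL]) ?_
    have h1 : spc d ((P, 1) ::ₘ L) < spc d L := by
      refine lt_of_le_of_ne ?_ ?_
      · unfold spc
        refine inf_le_inf_left _ (le_iInf₂ fun p hp => ?_)
        exact iInf₂_le p (Multiset.mem_cons_of_mem hp)
      · intro heq
        have h2 : z ∈ spc d ((P, 1) ::ₘ L) := by rw [heq]; exact hz
        have h3 := (Submodule.mem_inf.1 h2).2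
        rw [Submodule.mem_iInf] at h3
        have h4 := h3 (P, 1)
        rw [Submodule.mem_iInf] at h4
        have h5 := h4 (Multiset.mem_cons_self _ _) 0 (by simp)
        apply hP
        have h6 : MvPolynomial.coeff 0 (tau P z) = MvPolynomial.eval P z := by
          rw [← MvPolynomial.constantCoeff_eq]
          have h7 : ((MvPolynomial.constantCoeff (R := ℂ) (σ := Fin 3)).comp
              (tau P : MvPolynomial (Fin 3) ℂ →ₐ[ℂ] MvPolynomial (Fin 3) ℂ).toRingHom) =
              MvPolynomial.eval P := by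
            apply MvPolynomial.ringHom_ext
            · intro r
              simp [tau]
            · intro i
              simp [tau]
          exact congrFun (congrArg DFunLike.coe h7) z
        rw [← h6]
        exact h5
    have h2 := Submodule.finrank_lt_finrank_of_lt h1
    omega

/-- simple points -/
theorem gd_simple (hC : S_CNV) (d n : ℕ) : gd d (rp n 1) ≤ (d + 2).choose 2 - n := by
  induction n with
  | zero =>
    obtain ⟨G, hG0, hG⟩ := UN.nonSp_zero 0 d
    have h6 := hC.1 0 d ((d + 2).choose 2) (fun _ => 0) ⟨G, hG0, fun P hP hGP => by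
      have h7 := hG P hP hGP
      have h8 : (max ((Nat.choose (d + 2) 2 : ℤ) - (0 : ℕ) * (Nat.choose (0 + 1) 2 : ℤ)) 0) =
          ((d + 2).choose 2 : ℕ) := by
        simp
      rw [h8] at h7
      exact le_of_eq (by exact_mod_cast h7)⟩
    simpa using h6
  | succ n ih =>
    have h := gd_one d (rp n 1)
    have h2 : rp (n + 1) 1 = 1 ::ₘ rp n 1 := Multiset.replicate_succ 1 n
    rw [h2]
    omega

/-- from a bound of `gd` to the dimension -/
theorem nonSp_gd (hC : S_CNV) (n m d : ℕ)
    (h4 : gd d (rp n m) ≤ (d + 2).choose 2 - n * (m + 1).choose 2) : NonSp n m d := by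
  obtain ⟨P, hP⟩ := hC.2 n m d _ h4
  refine UN.nonSp_of n m d _ ⟨ℂ, inferInstance, inferInstance, P, hP⟩ ?_
  have h5 : ((n * (m + 1).choose 2 : ℕ) : ℤ) = n * ((m + 1).choose 2 : ℤ) := by push_cast; ring
  rcases le_total (n * (m + 1).choose 2) ((d + 2).choose 2) with h | h
  · rw [Nat.cast_sub h, h5]
    exact le_max_left _ _
  · rw [Nat.sub_eq_zero_of_le h]
    exact le_max_right _ _

/-- from the dimension to a bound of `gd` -/
theorem gd_nonSp (hC : S_CNV) (n m d : ℕ) (h : NonSp n m d) :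
    gd d (rp n m) ≤ (d + 2).choose 2 - n * (m + 1).choose 2 := by
  obtain ⟨G, hG0, hG⟩ := h
  have h6 := hC.1 n d ((d + 2).choose 2 - n * (m + 1).choose 2) (fun _ => m)
    ⟨G, hG0, fun P hP hGP => by
      have h7 := hG P hP hGP
      have h5 : ((n * (m + 1).choose 2 : ℕ) : ℤ) = n * ((m + 1).choose 2 : ℤ) := by
        push_cast; ring
      rcases le_total (n * (m + 1).choose 2) ((d + 2).choose 2) with h | h
      · rw [← h5, ← Nat.cast_sub h, max_eq_left (by positivity)] at h7
        exact le_of_eq (by exact_mod_cast h7)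
      · rw [max_eq_right (by rw [← h5]; have : (((d + 2).choose 2 : ℕ) : ℤ) ≤
          ((n * (m + 1).choose 2 : ℕ) : ℤ) := by exact_mod_cast h
                             linarith)] at h7
        have : finrank ℂ (↥(MvPolynomial.homogeneousSubmodule (Fin 3) ℂ d ⊓
          ⨅ i : Fin n, Submodule.restrictScalars ℂ
            ((Ideal.span {g : MvPolynomial (Fin 3) ℂ |
                g.IsHomogeneous 1 ∧ MvPolynomial.eval (P i) g = 0}) ^ m
              : Ideal (MvPolynomial (Fin 3) ℂ)))) = 0 := by exact_mod_cast h7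
        rw [this]
        exact Nat.zero_le _⟩
  have h8 : Multiset.map (fun _ : Fin n => m) Finset.univ.val = rp n m := by
    rw [Multiset.map_const']
    simp
  rwa [h8] at h6

/-- `m = 1` -/
theorem nonSp_one (hC : S_CNV) (n d : ℕ) : NonSp n 1 d :=
  nonSp_gd hC n 1 d (by simpa using gd_simple hC d n)

end Pool.Agent.Helper90.UC
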