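import Pool.Agent.Helper90.UC.ROW
import Pool.Agent.Helper27.UC.Goals

/-!
PROJECT UC: the empty and the regular side for the generic dimension `gd` (helper90).
-/

set_option autoImplicit false

noncomputable section

namespace Pool.Agent.Helper90.UC

open Module Pool.Agent.Helper97 Pool.Agent.Helper97.Nag Pool.Agent.Helper1.All Pool.Agent.Helper1.T1

open Pool.Agent.Helper27.UC (gd rp S_CNV)

/-- an enumeration of a multiset of marked points -/
theorem enum {c : ℕ} (T : Multiset (Fin c × ℕ)) : ∃ (n : ℕ) (f : Fin n → Fin c × ℕ),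
    Multiset.map f Finset.univ.val = T := by
  induction T using Quotient.inductionOn with
  | h L =>
    refine ⟨L.length, L.get, ?_⟩
    have h1 : (Finset.univ : Finset (Fin L.length)).val = (List.finRange L.length : Multiset _) := rfl
    rw [h1, Multiset.map_coe]
    exact congrArg _ (List.map_get_finRange L)

section

variable {n c : ℕ} (f : Fin n → Fin c × ℕ)

theorem en_filter (l : Fin c) : Multiset.map f (rw_ (fun i => (f i).1) l).val =
    (Multiset.map f Finset.univ.val).filter fun p => p.1 = l := by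
  rw [rw_, Finset.filter_val, Multiset.filter_map]
  rfl

theorem en_card (l : Fin c) : (rw_ (fun i => (f i).1) l).card =
    ((Multiset.map f Finset.univ.val).filter fun p => p.1 = l).card := by
  rw [← en_filter, Multiset.card_map]
  rfl

theorem en_sum (l : Fin c) : ∑ i ∈ rw_ (fun i => (f i).1) l, (f i).2 =
    (((Multiset.map f Finset.univ.val).filter fun p => p.1 = l).map Prod.snd).sum := by
  rw [← en_filter, Multiset.map_map]
  rfl

theorem en_snd : Multiset.map (fun i => (f i).2) Finset.univ.val =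
    (Multiset.map f Finset.univ.val).map Prod.snd := by
  rw [Multiset.map_map]
  rfl

theorem en_vdim (d : ℕ) : vdim d (fun i => (f i).2) = (Nat.choose (d + 2) 2 : ℤ) -
    (((Multiset.map f Finset.univ.val).map Prod.snd).map fun x => ((x + 1).choose 2 : ℤ)).sum := by
  rw [vdim, Multiset.map_map, Multiset.map_map]
  rfl

end

/-- the empty side -/
theorem emT (hC : S_CNV) {c : ℕ} (k d : ℕ) (T : Multiset (Fin c × ℕ)) (a N S : Fin c → ℕ)
    (hN : ∀ l, (T.filter fun p => p.1 = l).card = N l)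
    (hS : ∀ l, ((T.filter fun p => p.1 = l).map Prod.snd).sum = S l)
    (hk : 3 ≤ k) (hc : 2 * c ≤ (k - 1) * (k - 2)) (ha : ∀ l, 0 < a l) (D : ℕ)
    (hD : 0 < D) (hDs : D = ∑ l, N l * a l ^ 2)
    (h2 : ∀ l, 2 ≤ N l)
    (h3 : ∀ l, (k * a l) ^ 2 ≤ D) (h4 : ∀ l, D ≤ (k * (N l * a l)) ^ 2)
    (h5 : D * d ^ 2 < (∑ l, a l * S l) ^ 2) : gd d (T.map Prod.snd) = 0 := by
  obtain ⟨n, f, rfl⟩ := enum T
  have hN' : ∀ l, (rw_ (fun i => (f i).1) l).card = N l := fun l => by rw [en_card, hN]
  have hS' : ∀ l, ∑ i ∈ rw_ (fun i => (f i).1) l, (f i).2 = S l := fun l => by rw [en_sum, hS]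
  have h := emp_row k d (fun i => (f i).2) (fun i => (f i).1) a hk hc ha D hD
    (by simp only [hN']; exact hDs) (by simpa only [hN'] using h2) h3
    (by simpa only [hN'] using h4) (by simpa only [hS'] using h5)
  obtain ⟨G, hG0, hG⟩ := h
  have h6 := hC.1 n d 0 (fun i => (f i).2) ⟨G, hG0, fun P hP hGP => by
    have := hG P hP hGP
    exact_mod_cast this.le⟩
  rw [en_snd] at h6
  exact Nat.le_zero.1 h6

/-- the regular side -/
theorem rgT (hC : S_CNV) {c : ℕ} (k d : ℕ) (T : Multiset (Fin c × ℕ)) (a N : Fin c → ℕ) (M V : ℕ)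
    (hN : ∀ l, (T.filter fun p => p.1 = l).card = N l)
    (hm : ∀ p ∈ T, p.2 + 1 ≤ a p.1)
    (hk : 3 ≤ k) (hc : 2 * c ≤ (k - 1) * (k - 2)) (ha : ∀ l, 0 < a l) (hne : ∀ l, 1 ≤ N l)
    (h1 : ∀ l, k * a l < d + 3)
    (h2 : ∑ l, a l * max (k * (N l * a l)) (d + 3) < k * (d + 3) ^ 2)
    (hV : ((T.map Prod.snd).map fun x => ((x + 1).choose 2)).sum = V)
    (hM : (d + 2).choose 2 ≤ M + V) : gd d (T.map Prod.snd) ≤ M := by
  obtain ⟨n, f, rfl⟩ := enum T
  have hN' : ∀ l, (rw_ (fun i => (f i).1) l).card = N l := fun l => by rw [en_card, hN]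
  have h := reg_row k d (fun i => (f i).2) (fun i => (f i).1) a hk hc ha
    (by simpa only [hN'] using hne)
    (fun i => hm (f i) (Multiset.mem_map_of_mem f (Finset.mem_univ i))) h1
    (by simpa only [hN'] using h2)
  obtain ⟨⟨G, hG0, hG⟩, h0⟩ := h
  have h6 := hC.1 n d M (fun i => (f i).2) ⟨G, hG0, fun P hP hGP => by
    have h7 := hG P hP hGP
    have h8 : vdim d (fun i => (f i).2) ≤ M := by
      rw [en_vdim]
      have h9 : (((Multiset.map f Finset.univ.val).map Prod.snd).map
          fun x => ((x + 1).choose 2 : ℤ)).sum = V := by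
        rw [← hV, Nat.cast_multiset_sum]
        simp only [Multiset.map_map]
        rfl
      rw [h9]
      have : ((d + 2).choose 2 : ℤ) ≤ M + V := by exact_mod_cast hM
      linarith
    rw [← h7] at h8
    exact_mod_cast h8⟩
  rw [en_snd] at h6
  exact h6

end Pool.Agent.Helper90.UC
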