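import Pool.Agent.Helper90.UC.FINC2

/-!
PROJECT UC: `4 ∣ n`, `40 ≤ n ≤ 64`, and the end (helper90).
-/

set_option autoImplicit false

noncomputable section

namespace Pool.Agent.Helper90.UC

open Module Pool.Agent.Helper97 Pool.Agent.Helper97.Nag

open Pool.Agent.Helper27.UC (gd rp S_CNV S_G1M S_G2M)

/-- an enumeration of a multiset -/
theorem enum1 (T : Multiset ℕ) : ∃ (n : ℕ) (f : Fin n → ℕ), Multiset.map f Finset.univ.val = T := by
  induction T using Quotient.inductionOn with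
  | h L =>
    refine ⟨L.length, L.get, ?_⟩
    have h1 : (Finset.univ : Finset (Fin L.length)).val = (List.finRange L.length : Multiset _) := rfl
    rw [h1, Multiset.map_coe]
    exact congrArg _ (List.map_get_finRange L)

/-- Nagata's inequality for `gd` -/
theorem emN (hC : S_CNV) (d : ℕ) (T : Multiset ℕ) (hT : 10 ≤ T.card)
    (h : T.card * d ^ 2 ≤ T.sum ^ 2) (h1 : 1 ≤ T.sum) : gd d T = 0 := by
  obtain ⟨n, f, rfl⟩ := enum1 T
  have hn : (Multiset.map f Finset.univ.val).card = n := by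
    rw [Multiset.card_map]
    exact Finset.card_fin n
  have hs : (Multiset.map f Finset.univ.val).sum = ∑ i, f i := rfl
  rw [hn] at h hT
  rw [hs] at h h1
  obtain ⟨G, hG0, hG⟩ := nagataC nGoals n d f hT h h1
  exact Nat.le_zero.1 (hC.1 n d 0 f ⟨G, hG0, fun P _ hGP => (hG P hGP).le⟩)

/-- `n = 4 j`, `40 ≤ n ≤ 64`, `m ≥ 2` -/
theorem finB (hC : S_CNV) (hG : S_GLUE2) (n m d j : ℕ) (hn1 : n = 4 * j)
    (hn : 40 ≤ n) (hn2 : n ≤ 64) (hsq : ¬ IsSquare n)
    (hm : 2 ≤ m) (h1 : n * m ^ 2 < d ^ 2)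
    (h3 : |((Nat.choose (d + 2) 2 : ℝ) - n * (Nat.choose (m + 1) 2 : ℝ))| <
      (√(n : ℝ) + 1) * m) :
    gd d (rp n m) ≤ (d + 2).choose 2 - n * (m + 1).choose 2 := by
  have hlow := lowd n m d h1 h3
  have hupp := uppd n m d (by omega) h3 (by omega)
  set r : ℝ := √(n : ℝ) with hr
  have hr2 : r ^ 2 = n := Real.sq_sqrt (Nat.cast_nonneg n)
  have hr0 : 0 ≤ r := Real.sqrt_nonneg _
  have hn' : (40 : ℝ) ≤ n := by exact_mod_cast hn
  have hn2' : (n : ℝ) ≤ 64 := by exact_mod_cast hn2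
  have hm' : (2 : ℝ) ≤ m := by exact_mod_cast hm
  have hr6 : 6 ≤ r := Real.le_sqrt_of_sq_le (by rw [show (6 : ℝ) ^ 2 = 36 by norm_num]; linarith)
  have hr8 : r ≤ 8 := Real.sqrt_le_iff.2 ⟨by norm_num, by linarith⟩
  have hnj : (n : ℝ) = 4 * j := by exact_mod_cast hn1
  have hsqj : ¬ IsSquare j := by
    rintro ⟨k, hk⟩
    exact hsq ⟨2 * k, by rw [hn1, hk]; ring⟩
  set N := (d + 2).choose 2 - n * (m + 1).choose 2 with hN
  have hsplit : rp n m = rp (4 * j) m + 0 := by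
    rw [add_zero, hn1]
  rw [hsplit]
  have t0 := tri2 m
  have t1 := tri2 (2 * m)
  refine hG d m j N 0 (by omega) ?_ ?_
  · have hreg : j * (2 * m + 1) ^ 2 ≤ (d + 3) ^ 2 := by
      have h4 : (j : ℝ) * (2 * m + 1) ^ 2 ≤ ((d : ℝ) + 3) ^ 2 := by
        have g1 : (j : ℝ) * (2 * m + 1) ^ 2 = n * m ^ 2 + n * m + n / 4 := by
          rw [hnj]; ring
        rw [g1]
        have g2 : 2 * (r - 2) ≤ m * (r - 2) := mul_le_mul_of_nonneg_right hm' (by linarith)
        nlinarith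
      exact_mod_cast h4
    have h5 := gd_nonSp hC j (2 * m) d (UN.out j (2 * m) d (by omega) hsqj (by omega) (Or.inr hreg))
    rw [add_zero]
    refine h5.trans ?_
    have h6 : n * (m + 1).choose 2 = j * (2 * m + 1).choose 2 + j * m := by
      have : 2 * (n * (m + 1).choose 2) = 2 * (j * (2 * m + 1).choose 2 + j * m) := by
        calc 2 * (n * (m + 1).choose 2) = n * (2 * (m + 1).choose 2) := by ring
          _ = n * (m * (m + 1)) := by rw [t0]
          _ = j * (2 * m * (2 * m + 1)) + 2 * (j * m) := by rw [hn1]; ring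
          _ = j * (2 * (2 * m + 1).choose 2) + 2 * (j * m) := by rw [t1]
          _ = _ := by ring
      omega
    rw [hN, h6]
    omega
  · intro i k hik
    have hT : ((2 * m + k + 1 + N / m) ::ₘ (rp i (2 * m + 1) + rp k (2 * m) + 0)).card = j := by
      simp
      omega
    have hS : ((2 * m + k + 1 + N / m) ::ₘ (rp i (2 * m + 1) + rp k (2 * m) + 0)).sum =
        j * (2 * m + 1) + N / m := by
      simp
      rw [← hik]
      ring
    apply emN hC
    · rw [hT]; omega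
    · rw [hT, hS]
      have h4 : (d : ℝ) ^ 2 * 4 ≤ n * (2 * m + 1) ^ 2 := by
        have h5 : r * d ≤ n * (m + 1 / 2) := by linarith
        have h6 : (r * d) ^ 2 ≤ (n * (m + 1 / 2)) ^ 2 := pow_le_pow_left₀ (by positivity) h5 2
        rw [mul_pow, hr2] at h6
        have h7 : (n : ℝ) * ((d : ℝ) ^ 2) ≤ n * (n * (m + 1 / 2) ^ 2) := by nlinarith
        have h8 := le_of_mul_le_mul_left h7 (by linarith)
        nlinarith
      have h5 : d ^ 2 ≤ j * (2 * m + 1) ^ 2 := by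
        have h6 : (d : ℝ) ^ 2 ≤ j * (2 * m + 1) ^ 2 := by
          rw [hnj] at h4
          nlinarith
        exact_mod_cast h6
      calc j * d ^ 2 ≤ j * (j * (2 * m + 1) ^ 2) := Nat.mul_le_mul_left j h5
        _ = (j * (2 * m + 1)) ^ 2 := by ring
        _ ≤ (j * (2 * m + 1) + N / m) ^ 2 := Nat.pow_le_pow_left (Nat.le_add_right _ _) 2
    · rw [hS]
      have : 1 * 1 ≤ j * (2 * m + 1) := Nat.mul_le_mul (by omega) (by omega)
      exact le_trans this (Nat.le_add_right _ _)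

/-- THE THEOREM: no exceptional degree for `n ≥ 65`, and for `4 ∣ n`, `n ≥ 40` -/
theorem nonSpAll (hC : S_CNV) (h1M : S_G1M) (h2M : S_G2M) (G : UN.UGoals) (n m d : ℕ)
    (hn : 65 ≤ n ∨ (4 ∣ n ∧ 40 ≤ n)) : UN.NonSp n m d := by
  rcases Nat.eq_zero_or_pos m with hm | hm
  · subst hm
    exact UN.nonSp_zero n d
  have hn10 : 10 ≤ n := by omega
  by_cases hsq : IsSquare n
  · exact G.sqc n m d hn10 hsq
  rcases le_or_gt 257 n with hA | hA
  · exact nonSpA hC h1M h2M G n m d hA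
  by_cases h1 : d ^ 2 ≤ n * m ^ 2
  · exact UN.out n m d hn10 hsq hm (Or.inl h1)
  by_cases h2 : n * (m + 1) ^ 2 ≤ (d + 3) ^ 2
  · exact UN.out n m d hn10 hsq hm (Or.inr h2)
  by_contra hcon
  have h3 := UN.crit G n m d hn10 hsq hm (not_le.1 h1) (not_le.1 h2) hcon
  apply hcon
  rcases (by omega : m = 1 ∨ 2 ≤ m) with hm1 | hm1
  · subst hm1
    exact nonSp_one hC n d
  apply nonSp_gd hC
  rcases le_or_gt 65 n with h | h
  · have h256 : n ≠ 256 := by
      rintro rfl
      exact hsq ⟨16, by norm_num⟩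
    exact finC hC (glue2 h1M h2M) n m d h (by omega) hm1 (not_le.1 h1) (not_le.1 h2) h3
  · obtain ⟨⟨j, hj⟩, h40⟩ := hn.resolve_left (by omega)
    exact finB hC (glue2 h1M h2M) n m d j hj h40 (by omega) hsq hm1 (not_le.1 h1) h3

end Pool.Agent.Helper90.UC
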