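import Mathlib

/-!
PROJECT UC: the arithmetic (helper90).
-/

set_option autoImplicit false

noncomputable section

namespace Pool.Agent.Helper90.UC

section

variable (n m d : ℕ) (hm : 1 ≤ m) (h1 : n * m ^ 2 < d ^ 2)
  (h3 : |((Nat.choose (d + 2) 2 : ℝ) - n * (Nat.choose (m + 1) 2 : ℝ))| < (√(n : ℝ) + 1) * m)

theorem ch2 (x : ℕ) : (Nat.choose (x + 2) 2 : ℝ) = ((x : ℝ) + 1) * (x + 2) / 2 := by
  rw [Nat.cast_choose_two]
  push_cast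
  ring

theorem ch1 (x : ℕ) : (Nat.choose (x + 1) 2 : ℝ) = (x : ℝ) * (x + 1) / 2 := by
  rw [Nat.cast_choose_two]
  push_cast
  ring

include h1 h3 in
/-- the lower bound of the degree -/
theorem lowd : (n : ℝ) * m ^ 2 + m * (n + √(n : ℝ) - 2) + 7 < ((d : ℝ) + 3) ^ 2 := by
  have hr0 : 0 ≤ √(n : ℝ) := Real.sqrt_nonneg _
  have hrm : √(n : ℝ) * m < d := by
    have h4 : (√(n : ℝ) * m) ^ 2 < (d : ℝ) ^ 2 := by
      rw [mul_pow, Real.sq_sqrt (Nat.cast_nonneg n)]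
      exact_mod_cast h1
    exact lt_of_pow_lt_pow_left₀ 2 (Nat.cast_nonneg d) h4
  rw [abs_lt, ch2, ch1] at h3
  nlinarith [h3.1, h3.2]

include hm h3 in
/-- the upper bound of the degree -/
theorem uppd (hn : 1 ≤ n) : √(n : ℝ) * d < n * m + n / 2 - √(n : ℝ) / 2 + 1 := by
  set r : ℝ := √(n : ℝ) with hr
  have hn' : (1 : ℝ) ≤ n := by exact_mod_cast hn
  have hm' : (1 : ℝ) ≤ m := by exact_mod_cast hm
  have hr2 : r ^ 2 = n := Real.sq_sqrt (by linarith)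
  have hr0 : 0 < r := Real.sqrt_pos.2 (by linarith)
  rw [abs_lt, ch2, ch1] at h3
  by_contra hcon
  push Not at hcon
  have h5 : (n : ℝ) * (m + 1 / 2) + (r + 1) ≤ r * ((d : ℝ) + 3 / 2) := by nlinarith
  have h6 : 0 ≤ (n : ℝ) * (m + 1 / 2) + (r + 1) := by positivity
  have h7 : ((n : ℝ) * (m + 1 / 2) + (r + 1)) ^ 2 ≤ (r * ((d : ℝ) + 3 / 2)) ^ 2 :=
    pow_le_pow_left₀ h6 h5 2
  have h8 : (r * ((d : ℝ) + 3 / 2)) ^ 2 = n * ((d : ℝ) + 3 / 2) ^ 2 := by rw [mul_pow, hr2]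
  rw [h8] at h7
  have h9 : (n : ℝ) * ((n : ℝ) * (m + 1 / 2) ^ 2 + (2 * m + 1) * (r + 1)) ≤
      n * ((d : ℝ) + 3 / 2) ^ 2 := by
    nlinarith [sq_nonneg (r + 1)]
  have h10 := le_of_mul_le_mul_left h9 (by linarith)
  nlinarith [h3.1, h3.2]

end

end Pool.Agent.Helper90.UC
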