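import Pool.Agent.Helper90.UC.ARI

/-!
PROJECT UC: the arithmetic of the two levels (helper90).
-/

set_option autoImplicit false

noncomputable section

namespace Pool.Agent.Helper90.UC

/-- the number of the small squares -/
theorem pick (n : ℕ) (x : ℝ) (hx : 0 ≤ x) : ∃ s : ℕ, s % 4 = n % 4 ∧ x ≤ s ∧ (s : ℝ) < x + 4 := by
  set t := ⌈x⌉₊ with ht
  have h1 : x ≤ t := Nat.le_ceil x
  have h2 : (t : ℝ) < x + 1 := Nat.ceil_lt_add_one hx
  refine ⟨t + (n + 3 * t) % 4, by omega, ?_, ?_⟩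
  · push_cast
    have : (0 : ℝ) ≤ (((n + 3 * t) % 4 : ℕ) : ℝ) := Nat.cast_nonneg _
    linarith
  · have h3 : (((n + 3 * t) % 4 : ℕ) : ℝ) ≤ 3 := by
      have : (n + 3 * t) % 4 ≤ 3 := by omega
      exact_mod_cast this
    push_cast at h3 ⊢
    linarith

/-- the two levels -/
theorem ariA (n m d : ℕ) (hn : 257 ≤ n) (hm : 1 ≤ m) (h1 : n * m ^ 2 < d ^ 2)
    (h2 : (d + 3) ^ 2 < n * (m + 1) ^ 2)
    (h3 : |((Nat.choose (d + 2) 2 : ℝ) - n * (Nat.choose (m + 1) 2 : ℝ))| <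
      (√(n : ℝ) + 1) * m) :
    ∃ s0 s1 j1 j2 : ℕ, n = 4 * j1 + s0 ∧ j1 = 4 * j2 + s1 ∧ 2 ≤ s0 ∧ 2 ≤ s1 ∧ 2 ≤ j2 ∧ 2 ≤ j1 ∧
      n ≤ (4 * s0) ^ 2 ∧ n ≤ (8 * s1) ^ 2 ∧ n ≤ (8 * j1) ^ 2 ∧ n ≤ (16 * j2) ^ 2 ∧
      n * d ^ 2 < (n * m + 2 * j1) ^ 2 ∧ n * d ^ 2 < (n * m + 4 * j2 + 2 * (j1 - 1)) ^ 2 ∧
      4 * (4 * m + 1) < d + 3 ∧
      (4 * m + 1) * max (4 * (j2 * (4 * m + 1))) (d + 3) +
        (2 * m + 1) * max (4 * (s1 * (2 * m + 1))) (d + 3) +
        (m + 1) * max (4 * (s0 * (m + 1))) (d + 3) < 4 * (d + 3) ^ 2 := by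
  have hlow := lowd n m d h1 h3
  have hupp := uppd n m d hm h3 (by omega)
  set r : ℝ := √(n : ℝ) with hr
  have hn' : (257 : ℝ) ≤ n := by exact_mod_cast hn
  have hm' : (1 : ℝ) ≤ m := by exact_mod_cast hm
  have hr2 : r ^ 2 = n := Real.sq_sqrt (by linarith)
  have hr0 : 0 ≤ r := Real.sqrt_nonneg _
  have hr16 : 16 < r := by
    by_contra hcon
    push Not at hcon
    nlinarith
  have hrm : r * m < d := by
    have h4 : (r * m) ^ 2 < (d : ℝ) ^ 2 := by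
      rw [mul_pow, hr2]
      exact_mod_cast h1
    exact lt_of_pow_lt_pow_left₀ 2 (Nat.cast_nonneg d) h4
  have hdm : (d : ℝ) + 3 < r * (m + 1) := by
    have h4 : ((d : ℝ) + 3) ^ 2 < (r * (m + 1)) ^ 2 := by
      rw [mul_pow, hr2]
      exact_mod_cast h2
    exact lt_of_pow_lt_pow_left₀ 2 (by positivity) h4
  obtain ⟨s0, hs0, hs0a, hs0b⟩ := pick n (r / 4) (by linarith)
  have hs0n : s0 ≤ n := by
    have : (s0 : ℝ) ≤ n := by nlinarith
    exact_mod_cast this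
  obtain ⟨j1, hj1⟩ : ∃ j1, n = 4 * j1 + s0 := ⟨(n - s0) / 4, by omega⟩
  have hj1r : (n : ℝ) = 4 * j1 + s0 := by exact_mod_cast hj1
  obtain ⟨s1, hs1, hs1a, hs1b⟩ := pick j1 (r / 8) (by linarith)
  have hs1n : s1 ≤ j1 := by
    have : (s1 : ℝ) ≤ j1 := by nlinarith
    exact_mod_cast this
  obtain ⟨j2, hj2⟩ : ∃ j2, j1 = 4 * j2 + s1 := ⟨(j1 - s1) / 4, by omega⟩
  have hj2r : (j1 : ℝ) = 4 * j2 + s1 := by exact_mod_cast hj2
  have hj2big : r < 2 * j2 := by nlinarith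
  have hs02 : 2 ≤ s0 := by
    have : (2 : ℝ) ≤ s0 := by linarith
    exact_mod_cast this
  have hs12 : 2 ≤ s1 := by
    have : (2 : ℝ) ≤ s1 := by linarith
    exact_mod_cast this
  have hj22 : 2 ≤ j2 := by
    have : (2 : ℝ) ≤ j2 := by linarith
    exact_mod_cast this
  have hsq : ∀ x : ℕ, r ≤ x → n ≤ x ^ 2 := by
    intro x hx
    have h4 : r ^ 2 ≤ (x : ℝ) ^ 2 := pow_le_pow_left₀ hr0 hx 2
    rw [hr2] at h4
    exact_mod_cast h4
  have hlt : ∀ x : ℕ, r * d < x → n * d ^ 2 < x ^ 2 := by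
    intro x hx
    have h4 : (r * d) ^ 2 < (x : ℝ) ^ 2 := pow_lt_pow_left₀ hx (by positivity) (by norm_num)
    rw [mul_pow, hr2] at h4
    exact_mod_cast h4
  have hj1c : ((j1 - 1 : ℕ) : ℝ) = (j1 : ℝ) - 1 := by
    rw [Nat.cast_sub (by omega), Nat.cast_one]
  refine ⟨s0, s1, j1, j2, hj1, hj2, hs02, hs12, hj22, by omega, ?_, ?_, ?_, ?_, ?_, ?_, ?_, ?_⟩
  · apply hsq; push_cast; linarith
  · apply hsq; push_cast; linarith
  · apply hsq; push_cast; nlinarith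
  · apply hsq; push_cast; linarith
  · apply hlt; push_cast; linarith
  · apply hlt
    rw [Nat.cast_add, Nat.cast_add, Nat.cast_mul 2, hj1c]
    push_cast
    linarith
  · have : (4 : ℝ) * (4 * m + 1) < d + 3 := by
      by_contra hcon
      push Not at hcon
      have q1 : ((d : ℝ) + 3) ^ 2 ≤ (4 * (4 * m + 1)) ^ 2 := pow_le_pow_left₀ (by positivity) hcon 2
      have q2 : (257 : ℝ) * m ^ 2 ≤ n * m ^ 2 := mul_le_mul_of_nonneg_right hn' (by positivity)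
      have q3 : (257 : ℝ) * m ≤ n * m := mul_le_mul_of_nonneg_right hn' (by positivity)
      have q4 : 16 * (m : ℝ) ≤ r * m := mul_le_mul_of_nonneg_right hr16.le (by positivity)
      have q5 : 0 ≤ (m : ℝ) ^ 2 := sq_nonneg _
      linarith
    exact_mod_cast this
  · -- the sum of the areas
    have e0 : max (4 * (s0 * (m + 1))) (d + 3) ≤ 4 * (s0 * (m + 1)) := by
      apply max_le le_rfl
      have q1 : r * (m + 1) ≤ 4 * s0 * ((m : ℝ) + 1) :=
        mul_le_mul_of_nonneg_right (by linarith) (by positivity)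
      have : (d : ℝ) + 3 ≤ 4 * (s0 * (m + 1)) := by linarith
      exact_mod_cast this
    have e1 : max (4 * (s1 * (2 * m + 1))) (d + 3) ≤ 8 * (s1 * (m + 1)) := by
      apply max_le
      · have : s1 * (2 * m + 1) ≤ s1 * (2 * (m + 1)) := Nat.mul_le_mul_left _ (by omega)
        calc 4 * (s1 * (2 * m + 1)) ≤ 4 * (s1 * (2 * (m + 1))) := Nat.mul_le_mul_left _ this
          _ = 8 * (s1 * (m + 1)) := by ring
      · have q1 : r * (m + 1) ≤ 8 * s1 * ((m : ℝ) + 1) :=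
          mul_le_mul_of_nonneg_right (by linarith) (by positivity)
        have : (d : ℝ) + 3 ≤ 8 * (s1 * (m + 1)) := by linarith
        exact_mod_cast this
    have e2 : max (4 * (j2 * (4 * m + 1))) (d + 3) ≤ 4 * (j2 * (4 * m + 1)) := by
      apply max_le le_rfl
      have q1 : r * (m + 1) ≤ 2 * j2 * ((m : ℝ) + 1) :=
        mul_le_mul_of_nonneg_right hj2big.le (by positivity)
      have q2 : (0 : ℝ) ≤ j2 * m := by positivity
      have q3 : (j2 : ℝ) ≤ j2 * m := le_mul_of_one_le_right (by positivity) hm'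
      have : (d : ℝ) + 3 ≤ 4 * (j2 * (4 * m + 1)) := by linarith
      exact_mod_cast this
    have f0 := Nat.mul_le_mul_left (m + 1) e0
    have f1 := Nat.mul_le_mul_left (2 * m + 1) e1
    have f2 := Nat.mul_le_mul_left (4 * m + 1) e2
    refine lt_of_le_of_lt (Nat.add_le_add (Nat.add_le_add f2 f1) f0) ?_
    have key : (4 * (m : ℝ) + 1) * (4 * (j2 * (4 * m + 1))) + (2 * m + 1) * (8 * (s1 * (m + 1))) +
        (m + 1) * (4 * (s0 * (m + 1))) < 4 * ((d : ℝ) + 3) ^ 2 := by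
      have g1 : (4 * (m : ℝ) + 1) * (4 * (j2 * (4 * m + 1))) + (2 * m + 1) * (8 * (s1 * (m + 1))) +
          (m + 1) * (4 * (s0 * (m + 1))) = 4 * ((n : ℝ) * (m + 1 / 4) ^ 2 +
            s1 * (4 * m + 7 / 4) + s0 * (3 / 2 * m + 15 / 16)) := by
        rw [hj1r, hj2r]
        ring
      rw [g1]
      have g2 : (s1 : ℝ) * (4 * m + 7 / 4) ≤ (r / 8 + 4) * (4 * m + 7 / 4) :=
        mul_le_mul_of_nonneg_right hs1b.le (by positivity)
      have g3 : (s0 : ℝ) * (3 / 2 * m + 15 / 16) ≤ (r / 4 + 4) * (3 / 2 * m + 15 / 16) :=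
        mul_le_mul_of_nonneg_right hs0b.le (by positivity)
      have g4 : (257 : ℝ) * m ≤ n * m := mul_le_mul_of_nonneg_right hn' (by positivity)
      have g5 : (n : ℝ) ≤ n * m := le_mul_of_one_le_right (by positivity) hm'
      have g6 : r ≤ r * m := le_mul_of_one_le_right hr0 hm'
      have g7 : 16 * r ≤ n := by
        have : 16 * r ≤ r * r := mul_le_mul_of_nonneg_right hr16.le hr0
        linarith
      have g8 : 16 * r * m ≤ n * m := mul_le_mul_of_nonneg_right g7 (by positivity)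
      linarith
    exact_mod_cast key

end Pool.Agent.Helper90.UC
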