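import Mathlib

/-!
PROJECT UC: the finite checks for `n ≤ 256` (helper90).
-/

set_option autoImplicit false

namespace Pool.Agent.Helper90.UC

/-- the number of the small squares -/
def sel (n : ℕ) : ℕ :=
  if n % 4 = 0 then 4 else if n % 4 = 1 then 5 else if n % 4 = 2 then 6 else
    if n ≤ 144 then 3 else 7

/-- the check -/
def okB (n m d : ℕ) : Bool :=
  !(decide (n * m ^ 2 < d ^ 2)) || !(decide ((d + 3) ^ 2 < n * (m + 1) ^ 2)) ||
    !(decide ((n * (m * (m + 1) / 2) - (d + 1) * (d + 2) / 2 - m) ^ 2 < n * m ^ 2)) ||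
    (List.range 2).any fun q => (List.range 4).any fun p =>
      decide (p + 1 ≤ sel n) &&
      decide (q + p = 0 ∨ (d + 1) * (d + 2) / 2 + q * (m * (2 * m + 1)) + p * (m * (m + 1) / 2) ≤
        n * (m * (m + 1) / 2)) &&
      decide ((2 * m + 1) * max (4 * (((n - sel n) / 4 - q) * (2 * m + 1))) (d + 3) +
        (m + 1) * max (4 * ((sel n - p) * (m + 1))) (d + 3) < 4 * (d + 3) ^ 2)

/-- all the degrees `t m ≤ d < (t + 1)(m + 1)` -/
def allE (t n m : ℕ) : Bool := (List.range (m + t + 1)).all fun e => okB n m (t * m + e)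

/-- all the multiplicities `a ≤ m < b` -/
def allM (t n a b : ℕ) : Bool := (List.range (b - a)).all fun i => allE t n (a + i)

/-- all the `n` with `t² ≤ n < (t + 1)²` -/
def allN (t : ℕ) : Bool := (List.range (2 * t + 1)).all fun u =>
  decide (t ^ 2 + u < 65) || allM t (t ^ 2 + u) 2 13

theorem chk1 : ((List.range 8).all fun t => allN (t + 8)) = true := by
  decide +kernel

theorem chk2 : ((List.range 4).all fun i => allM 8 (66 + 4 * i) 13 114) = true := by
  decide +kernel

theorem chk3 : ((List.range 3).all fun i => allM 9 (82 + 4 * i) 13 114) = true := by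
  decide +kernel

theorem allE_spec {t n m : ℕ} (h : allE t n m = true) (d : ℕ) (h1 : t * m ≤ d)
    (h2 : d < (t + 1) * (m + 1)) : okB n m d = true := by
  unfold allE at h
  rw [List.all_eq_true] at h
  obtain ⟨e, rfl⟩ := Nat.exists_eq_add_of_le h1
  refine h e (List.mem_range.2 ?_)
  have : (t + 1) * (m + 1) = t * m + (m + t + 1) := by ring
  omega

theorem allM_spec {t n a b : ℕ} (h : allM t n a b = true) (m : ℕ) (h1 : a ≤ m) (h2 : m < b) :
    allE t n m = true := by
  unfold allM at h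
  rw [List.all_eq_true] at h
  obtain ⟨e, rfl⟩ := Nat.exists_eq_add_of_le h1
  exact h e (List.mem_range.2 (by omega))

/-- the check for `m ≤ 12` -/
theorem check1 (n m d : ℕ) (hn : 65 ≤ n) (hn2 : n ≤ 255) (hm : 2 ≤ m) (hm2 : m < 13)
    (h1 : n * m ^ 2 < d ^ 2) (h2 : (d + 3) ^ 2 < n * (m + 1) ^ 2) : okB n m d = true := by
  obtain ⟨t, ht1, ht2⟩ : ∃ t, t ^ 2 ≤ n ∧ n < (t + 1) ^ 2 :=
    ⟨Nat.sqrt n, Nat.sqrt_le' n, Nat.lt_succ_sqrt' n⟩
  have ht8 : 8 ≤ t := by
    by_contra hcon
    have : t + 1 ≤ 8 := by omega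
    have := Nat.pow_le_pow_left this 2
    omega
  have ht16 : t < 16 := by
    by_contra hcon
    have : 16 ≤ t := by omega
    have := Nat.pow_le_pow_left this 2
    omega
  obtain ⟨u, rfl⟩ := Nat.exists_eq_add_of_le ht1
  have h := chk1
  rw [List.all_eq_true] at h
  have h3 := h (t - 8) (List.mem_range.2 (by omega))
  have h4 : t - 8 + 8 = t := by omega
  rw [h4] at h3
  unfold allN at h3
  rw [List.all_eq_true] at h3
  have h5 := h3 u (List.mem_range.2 (by
    have : (t + 1) ^ 2 = t ^ 2 + (2 * t + 1) := by ring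
    omega))
  rw [Bool.or_eq_true, decide_eq_true_iff] at h5
  have h6 := h5.resolve_left (by omega)
  refine allE_spec (allM_spec h6 m hm hm2) d ?_ ?_
  · have h7 : (t * m) ^ 2 < d ^ 2 := by
      refine lt_of_le_of_lt ?_ h1
      rw [mul_pow]
      exact Nat.mul_le_mul_right _ ht1
    exact (lt_of_pow_lt_pow_left₀ 2 (Nat.zero_le _) h7).le
  · have h7 : (d + 3) ^ 2 < ((t + 1) * (m + 1)) ^ 2 := by
      refine lt_of_lt_of_le h2 ?_
      rw [mul_pow]
      exact Nat.mul_le_mul_right _ ht2.le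
    have h8 := lt_of_pow_lt_pow_left₀ 2 (Nat.zero_le _) h7
    omega

/-- the check for `n = 66, 70, ..., 90` -/
theorem check2 (n m d : ℕ) (hn : 65 ≤ n) (hn2 : n ≤ 90) (hn4 : n % 4 = 2) (hm : 13 ≤ m)
    (hm2 : m < 114)
    (h1 : n * m ^ 2 < d ^ 2) (h2 : (d + 3) ^ 2 < n * (m + 1) ^ 2) : okB n m d = true := by
  have key : ∀ t, t ^ 2 ≤ n → n ≤ (t + 1) ^ 2 → t * m ≤ d ∧ d < (t + 1) * (m + 1) := by
    intro t ht1 ht2
    constructor
    · have h7 : (t * m) ^ 2 < d ^ 2 := by
        refine lt_of_le_of_lt ?_ h1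
        rw [mul_pow]
        exact Nat.mul_le_mul_right _ ht1
      exact (lt_of_pow_lt_pow_left₀ 2 (Nat.zero_le _) h7).le
    · have h7 : (d + 3) ^ 2 < ((t + 1) * (m + 1)) ^ 2 := by
        refine lt_of_lt_of_le h2 ?_
        rw [mul_pow]
        exact Nat.mul_le_mul_right _ ht2
      have h8 := lt_of_pow_lt_pow_left₀ 2 (Nat.zero_le _) h7
      omega
  rcases le_or_gt n 80 with h | h
  · obtain ⟨k1, k2⟩ := key 8 (by omega) (by omega)
    have h3 := chk2
    rw [List.all_eq_true] at h3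
    have h4 := h3 ((n - 66) / 4) (List.mem_range.2 (by omega))
    have h5 : 66 + 4 * ((n - 66) / 4) = n := by omega
    rw [h5] at h4
    exact allE_spec (allM_spec h4 m hm hm2) d k1 k2
  · obtain ⟨k1, k2⟩ := key 9 (by omega) (by omega)
    have h3 := chk3
    rw [List.all_eq_true] at h3
    have h4 := h3 ((n - 82) / 4) (List.mem_range.2 (by omega))
    have h5 : 82 + 4 * ((n - 82) / 4) = n := by omega
    rw [h5] at h4
    exact allE_spec (allM_spec h4 m hm hm2) d k1 k2

end Pool.Agent.Helper90.UC
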