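import Pool.Agent.Helper27.UC.Goals7

/-!
PROJECT UC (MP_d3128a_ag), DRP (helper90): the system with one special multiplicity.
-/

set_option autoImplicit false

noncomputable section

namespace Pool.Agent.Helper90.UC.DRP

open Pool.Agent.Helper97.Tate Pool.Agent.Helper1.All
open Pool.Agent.Helper27.UC

theorem sum_mul (k : ℕ) (M : Multiset ℕ) : (M.map fun v => k * v).sum = k * M.sum := by
  induction M using Multiset.induction_on with
  | empty => simp
  | cons a M ih => simp [ih, mul_add]

/-- `∑ c v (e v + f)` -/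
theorem sum_quad (c e f : ℕ) (M : Multiset ℕ) :
    (M.map fun v => c * v * (e * v + f)).sum =
      c * e * (M.map fun v => v ^ 2).sum + c * f * M.sum := by
  induction M using Multiset.induction_on with
  | empty => simp
  | cons a M ih =>
    rw [Multiset.map_cons, Multiset.sum_cons, ih, Multiset.map_cons, Multiset.sum_cons,
      Multiset.sum_cons]
    ring

theorem sum_quad0 (c e : ℕ) (M : Multiset ℕ) :
    (M.map fun v => c * v * (e * v)).sum = c * e * (M.map fun v => v ^ 2).sum := by
  have h := sum_quad c e 0 M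
  simp only [Nat.add_zero, Nat.mul_zero, Nat.zero_mul] at h
  exact h

theorem sum_P (P : Multiset (ℕ × ℕ)) (h : ∀ p ∈ P, p.2 ≤ p.1) :
    (P.map fun p => p.2 ^ 2).sum ≤ (P.map fun p => p.1 * p.2).sum := by
  induction P using Multiset.induction_on with
  | empty => simp
  | cons a P ih =>
    rw [Multiset.map_cons, Multiset.sum_cons, Multiset.map_cons, Multiset.sum_cons]
    have h1 := ih fun p hp => h p (Multiset.mem_cons_of_mem hp)
    have h2 : a.2 ^ 2 ≤ a.1 * a.2 := by
      rw [sq]
      exact Nat.mul_le_mul_right _ (h a (Multiset.mem_cons_self a P))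
    omega

/-- the final comparison: `w ≥ Q + 32 h / 3 - 6 m - 2 K n / 3` implies `w ≥ Q + 3 M / 5` -/
theorem fin_cmp (K n m H L Y Q w : ℕ) (hK : 1 ≤ K) (h1 : n * m ≤ 17 * K * H)
    (h2 : 1000 * K * L ≤ n * m) (h3 : 1000 * K * Y ≤ n * m) (h4 : 1000 * K * (K * n) ≤ n * m)
    (h5 : 1000 * K * (1000 * m) ≤ n * m)
    (hw : 3 * Q + 32 * H ≤ 3 * w + 18 * m + 2 * (K * n)) :
    5 * Q + 3 * (16 * H + 4 * L + Y) ≤ 5 * w := by
  have h6 : 36 * L + 9 * Y + 90 * m + 10 * (K * n) ≤ 16 * H := by
    have h7 : 1000 * K * (36 * L + 9 * Y + 90 * m + 10 * (K * n)) ≤ 1000 * K * (16 * H) := by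
      nlinarith
    exact Nat.le_of_mul_le_mul_left h7 (by omega)
  omega

/-- the first comparison -/
theorem fst_cmp (K n m H L N : ℕ) (hK : 1 ≤ K) (h1 : n * m ≤ 17 * K * H)
    (h2 : 1000 * K * L ≤ n * m) (h3 : 1000 * K * N ≤ n * m) (h4 : 1000 * K * (K * n) ≤ n * m)
    (h5 : 1000 * K * (1000 * m) ≤ n * m) :
    2 * N + 2 * L + 3 * m + K * n ≤ 4 * H := by
  have h7 : 1000 * K * (2 * N + 2 * L + 3 * m + K * n) ≤ 1000 * K * (4 * H) := by
    nlinarith
  exact Nat.le_of_mul_le_mul_left h7 (by omega)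

/-- the product `r g`, `r = Z / u`, `g = 3 u / 2` -/
theorem rg (K n m Z u : ℕ) (hu : 0 < u) (hm : m ≤ K * u) (hZ : Z ≤ n * m) :
    3 * Z ≤ 2 * (Z / u * (3 * u / 2)) + 3 * u + K * n := by
  obtain ⟨r, hr⟩ : ∃ r, r = Z / u := ⟨_, rfl⟩
  obtain ⟨g, hg⟩ : ∃ g, g = 3 * u / 2 := ⟨_, rfl⟩
  rw [← hr, ← hg]
  have h1 : Z < u * r + u := by
    have h2 := Nat.div_add_mod Z u
    have h3 := Nat.mod_lt Z hu
    rw [← hr] at h2
    omega
  have h2 : 3 * u ≤ 2 * g + 1 := by omega
  have h3 : r ≤ K * n := by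
    have h4 : u * r ≤ Z := by rw [hr]; exact Nat.mul_div_le Z u
    have h5 : n * m ≤ u * (K * n) := by
      calc n * m ≤ n * (K * u) := Nat.mul_le_mul_left _ hm
        _ = u * (K * n) := by ring
    exact Nat.le_of_mul_le_mul_left (h4.trans (hZ.trans h5)) hu
  have h6 : r * (3 * u) ≤ r * (2 * g + 1) := Nat.mul_le_mul_left _ h2
  have h7 : r * (3 * u) = 3 * (u * r) := by ring
  have h8 : r * (2 * g + 1) = 2 * (r * g) + r := by ring
  omega

theorem t (hINTM : S_INTM) (hRG2 : S_RG2) (hEM2 : S_EM2) (hHDB : S_HDB) :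
    Pool.Agent.Helper27.UC.S_DRP := by
  intro K n m d N u A2 A0 B2 B0 P hHD hCR hN hNs
  obtain ⟨b1, b2, b3, b4, b5, b6, b7, b8, b9, b10⟩ := hHDB K n m _ _ P hHD
  obtain ⟨hK, hn, hnm, -, hh, hl, hP, -, -, -⟩ := id hHD
  have hum : u ≤ m ∧ m ≤ K * u := by
    have := hl u (Multiset.mem_cons_self _ _)
    exact ⟨this.1, this.2.1⟩
  have hn0 : 0 < n := lt_of_lt_of_le (by positivity) hn
  have hu0 : 0 < u := by
    rcases Nat.eq_zero_or_pos u with h | h
    · rw [h] at hum
      omega
    · exact h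
  have hms : ms (A2 + B2) (u ::ₘ (A0 + B0)) P =
      16 * (A2 + B2).sum + 4 * (u ::ₘ (A0 + B0)).sum + (P.map fun p => p.2).sum := rfl
  obtain ⟨H, hH⟩ : ∃ H, H = (A2 + B2).sum := ⟨_, rfl⟩
  obtain ⟨L, hL⟩ : ∃ L, L = (u ::ₘ (A0 + B0)).sum := ⟨_, rfl⟩
  have hH' : H = A2.sum + B2.sum := by rw [hH, Multiset.sum_add]
  have hL' : L = u + (A0.sum + B0.sum) := by rw [hL, Multiset.sum_cons, Multiset.sum_add]
  rw [← hH] at b3 b4
  rw [← hL] at b5
  have hPs := sum_P P fun p hp => (hP p hp).1
  -- the special point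
  obtain ⟨Z, hZ⟩ : ∃ Z, Z = 4 * B2.sum + B0.sum := ⟨_, rfl⟩
  have hZn : Z ≤ n * m := by
    have h1 : L ≤ n * m := by
      refine le_trans ?_ b5
      exact Nat.le_mul_of_pos_left _ (by omega)
    omega
  have hrg := rg K n m Z u hu0 hum.2 hZn
  obtain ⟨r, hr⟩ : ∃ r, r = Z / u := ⟨_, rfl⟩
  obtain ⟨g, hg⟩ : ∃ g, g = 3 * u / 2 := ⟨_, rfl⟩
  rw [← hr, ← hg] at hrg
  rw [← hZ, ← hr]
  obtain ⟨X, hX⟩ : ∃ X, X = 2 * (A2.sum + B2.sum) + Multiset.card A2 := ⟨_, rfl⟩
  rw [← hX]
  have hfst := fst_cmp K n m H L N hK b3 b5 hNs b9 b10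
  have hQ : qs (A2 + B2) (u ::ₘ (A0 + B0)) P =
      16 * ((A2.map fun v => v ^ 2).sum + (B2.map fun v => v ^ 2).sum) +
      4 * (u ^ 2 + ((A0.map fun v => v ^ 2).sum + (B0.map fun v => v ^ 2).sum)) +
      (P.map fun p => p.2 ^ 2).sum := by
    unfold qs
    rw [Multiset.map_add, Multiset.sum_add, Multiset.map_cons, Multiset.sum_cons,
      Multiset.map_add, Multiset.sum_add]
  -- (a)
  have ha : gd d (A2.map (fun v => 4 * v) + (B2.map (fun v => 4 * v) + ((2 * u) ::ₘ
      (A0.map (fun v => 2 * v) + B0.map (fun v => 2 * v) + P.map Prod.snd)))) ≤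
      (X + r * g) + (A2.map fun v => 2 * (3 * v)).sum := by
    have h1 := hRG2 K n m d N _ _ P hHD hCR hN
    have h2 : (A2 + B2).map (fun v => 4 * v) + (u ::ₘ (A0 + B0)).map (fun v => 2 * v) +
        P.map Prod.snd = A2.map (fun v => 4 * v) + (B2.map (fun v => 4 * v) + ((2 * u) ::ₘ
      (A0.map (fun v => 2 * v) + B0.map (fun v => 2 * v) + P.map Prod.snd))) := by
      rw [Multiset.map_add, Multiset.map_cons, Multiset.map_add, ← Multiset.singleton_add,
        ← Multiset.singleton_add]
      abel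
    rw [h2, ← hH, ← hL] at h1
    refine h1.trans ?_
    have h3 : (A2.map fun v => 2 * (3 * v)).sum = 6 * A2.sum := by
      rw [← sum_mul]
      exact congrArg Multiset.sum (Multiset.map_congr rfl fun v _ => by ring)
    rw [h3]
    omega
  -- (b)
  have hb : gd d (A2.map (fun v => 4 * v + 2) + (B2.map (fun v => 4 * v) + ((2 * u) ::ₘ
      (A0.map (fun v => 2 * v) + B0.map (fun v => 2 * v) + P.map Prod.snd)))) ≤ X + r * g := by
    refine hINTM d (X + r * g) (fun v => 4 * v) (fun _ => 2) (fun v => 3 * v) A2 _ ?_ ha ?_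
    · intro v hv
      have h1 := hh v (Multiset.mem_add.mpr (Or.inl hv))
      have h2 : 0 < v := by
        rcases Nat.eq_zero_or_pos v with h | h
        · rw [h] at h1
          omega
        · exact h
      show 1 ≤ 3 * v ∧ 3 * v ≤ 4 * v
      omega
    · intro A B u1 hAB
      have hu1 : u1 ∈ A2 := by rw [← hAB]; exact Multiset.mem_cons_self _ _
      have hu1m := (hh u1 (Multiset.mem_add.mpr (Or.inl hu1))).1
      have hu10 : 0 < u1 := by
        have h1 := hh u1 (Multiset.mem_add.mpr (Or.inl hu1))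
        rcases Nat.eq_zero_or_pos u1 with h | h
        · rw [h] at h1
          omega
        · exact h
      obtain ⟨y, hy⟩ : ∃ y, y = (X + r * g + (B.map fun v => 2 * (3 * v)).sum) / (3 * u1) :=
        ⟨_, rfl⟩
      have h3 : (B.map fun v => 2 * (3 * v)).sum = 6 * B.sum := by
        rw [← sum_mul]
        exact congrArg Multiset.sum (Multiset.map_congr rfl fun v _ => by ring)
      have hy1 : X + r * g + 6 * B.sum < 3 * (u1 * y) + 3 * u1 := by
        have h4 := Nat.div_add_mod (X + r * g + (B.map fun v => 2 * (3 * v)).sum) (3 * u1)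
        have h5 := Nat.mod_lt (X + r * g + (B.map fun v => 2 * (3 * v)).sum)
          (show 0 < 3 * u1 by omega)
        rw [← hy] at h4
        have h6 : 3 * u1 * y = 3 * (u1 * y) := by ring
        omega
      have hem := hEM2 K n m d (A2 + B2) (u ::ₘ (A0 + B0)) P
        ((u1, 4 * u1 + 2 + y) ::ₘ (A.map (fun v => (v, 4 * v + 2)) +
          B.map (fun v => (v, 4 * v)) + B2.map (fun v => (v, 4 * v))))
        ((u, 2 * u) ::ₘ (A0.map (fun v => (v, 2 * v)) + B0.map (fun v => (v, 2 * v))))
        hHD hCR.1 ?_ ?_ ?_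
      · have h4 : (4 * u1 + 2 + (X + r * g + (B.map fun v => 2 * (3 * v)).sum) / (3 * u1)) ::ₘ
            (A.map (fun v => 4 * v + 2) + B.map (fun v => 4 * v) +
              (B2.map (fun v => 4 * v) + ((2 * u) ::ₘ
                (A0.map (fun v => 2 * v) + B0.map (fun v => 2 * v) + P.map Prod.snd)))) =
          ((u1, 4 * u1 + 2 + y) ::ₘ (A.map (fun v => (v, 4 * v + 2)) +
            B.map (fun v => (v, 4 * v)) + B2.map (fun v => (v, 4 * v)))).map Prod.snd +
          ((u, 2 * u) ::ₘ (A0.map (fun v => (v, 2 * v)) +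
            B0.map (fun v => (v, 2 * v)))).map Prod.snd + P.map Prod.snd := by
          rw [← hy]
          simp only [Multiset.map_cons, Multiset.map_add, Multiset.map_map, Function.comp_def]
          simp only [← Multiset.singleton_add]
          abel
        show gd d ((4 * u1 + 2 + (X + r * g + (B.map fun v => 2 * (3 * v)).sum) / (3 * u1)) ::ₘ
            (A.map (fun v => 4 * v + 2) + B.map (fun v => 4 * v) +
              (B2.map (fun v => 4 * v) + ((2 * u) ::ₘ
                (A0.map (fun v => 2 * v) + B0.map (fun v => 2 * v) + P.map Prod.snd))))) = 0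
        rw [h4]
        exact hem
      · simp only [Multiset.map_cons, Multiset.map_add, Multiset.map_map, Function.comp_def,
          Multiset.map_id']
        rw [← hAB, Multiset.cons_add]
      · simp only [Multiset.map_cons, Multiset.map_add, Multiset.map_map, Function.comp_def,
          Multiset.map_id']
      · -- the weights
        have hA2s : A2.sum = u1 + (A.sum + B.sum) := by
          rw [← hAB, Multiset.sum_cons, Multiset.sum_add]
        have hA2q : (A2.map fun v => v ^ 2).sum =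
            u1 ^ 2 + ((A.map fun v => v ^ 2).sum + (B.map fun v => v ^ 2).sum) := by
          rw [← hAB, Multiset.map_cons, Multiset.sum_cons, Multiset.map_add, Multiset.sum_add]
        have hwt : wt ((u1, 4 * u1 + 2 + y) ::ₘ (A.map (fun v => (v, 4 * v + 2)) +
            B.map (fun v => (v, 4 * v)) + B2.map (fun v => (v, 4 * v))))
          ((u, 2 * u) ::ₘ (A0.map (fun v => (v, 2 * v)) + B0.map (fun v => (v, 2 * v)))) P =
            (4 * u1 * (4 * u1 + 2 + y) + (4 * 4 * (A.map fun v => v ^ 2).sum + 4 * 2 * A.sum +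
              4 * 4 * (B.map fun v => v ^ 2).sum + 4 * 4 * (B2.map fun v => v ^ 2).sum)) +
            (2 * u * (2 * u) + (2 * 2 * (A0.map fun v => v ^ 2).sum +
              2 * 2 * (B0.map fun v => v ^ 2).sum)) + (P.map fun p => p.1 * p.2).sum := by
          unfold wt
          simp only [Multiset.map_cons, Multiset.map_add, Multiset.map_map, Function.comp_def,
            Multiset.sum_cons, Multiset.sum_add, sum_quad, sum_quad0]
        rw [hwt, hms, ← hH, ← hL]
        refine fin_cmp K n m H L _ _ _ hK b3 b5 b6 b9 b10 ?_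
        rw [hQ, hA2q]
        have e1 : 4 * u1 * (4 * u1 + 2 + y) = 16 * u1 ^ 2 + 8 * u1 + 4 * (u1 * y) := by ring
        have e2 : 2 * u * (2 * u) = 4 * u ^ 2 := by ring
        rw [e1, e2]
        omega
  -- (c)
  have hc := hINTM d X (fun v => 2 * v) (fun _ => r) (fun _ => g) {u}
    (A2.map (fun v => 4 * v + 2) + B2.map (fun v => 4 * v) +
      (A0.map (fun v => 2 * v) + B0.map (fun v => 2 * v) + P.map Prod.snd)) ?_ ?_ ?_
  · have h1 : Multiset.map (fun v => 2 * v + r) {u} + (A2.map (fun v => 4 * v + 2) +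
        B2.map (fun v => 4 * v) +
        (A0.map (fun v => 2 * v) + B0.map (fun v => 2 * v) + P.map Prod.snd)) =
      A2.map (fun v => 4 * v + 2) + B2.map (fun v => 4 * v) +
        ((2 * u + r) ::ₘ
          (A0.map (fun v => 2 * v) + B0.map (fun v => 2 * v) + P.map Prod.snd)) := by
      rw [Multiset.map_singleton, ← Multiset.singleton_add]
      abel
    rw [← h1]
    exact hc
  · intro v hv
    rw [Multiset.mem_singleton] at hv
    subst hv
    show 1 ≤ g ∧ g ≤ 2 * v
    omega
  · have h1 : Multiset.map (fun v => 2 * v) {u} + (A2.map (fun v => 4 * v + 2) +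
        B2.map (fun v => 4 * v) +
        (A0.map (fun v => 2 * v) + B0.map (fun v => 2 * v) + P.map Prod.snd)) =
      A2.map (fun v => 4 * v + 2) + (B2.map (fun v => 4 * v) + ((2 * u) ::ₘ
      (A0.map (fun v => 2 * v) + B0.map (fun v => 2 * v) + P.map Prod.snd))) := by
      rw [Multiset.map_singleton, ← Multiset.singleton_add]
      abel
    rw [h1]
    have h2 : (Multiset.map (fun _ : ℕ => r * g) {u}).sum = r * g := by
      rw [Multiset.map_singleton, Multiset.sum_singleton]
    show _ ≤ X + (Multiset.map (fun _ : ℕ => r * g) {u}).sum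
    rw [h2]
    exact hb
  · intro A B u1 hAB
    have hc0 : Multiset.card A + Multiset.card B = 0 := by
      have h1 := congrArg Multiset.card hAB
      rw [Multiset.card_cons, Multiset.card_add, Multiset.card_singleton] at h1
      omega
    have hA : A = 0 := Multiset.card_eq_zero.mp (by omega)
    have hB : B = 0 := Multiset.card_eq_zero.mp (by omega)
    subst hA hB
    have hu1 : u1 = u := by
      have h1 : u1 ∈ ({u} : Multiset ℕ) := by rw [← hAB]; exact Multiset.mem_cons_self _ _
      exact Multiset.mem_singleton.mp h1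
    subst hu1
    obtain ⟨y, hy⟩ : ∃ y, y = X / g := ⟨_, rfl⟩
    have hg1 : 1 ≤ g ∧ 2 * g ≤ 3 * u1 := by omega
    have hy1 : 2 * X ≤ 3 * (u1 * y) + 3 * u1 := by
      have h4 := Nat.div_add_mod X g
      have h5 := Nat.mod_lt X (show 0 < g by omega)
      rw [← hy] at h4
      have h6 : 2 * g * (y + 1) ≤ 3 * u1 * (y + 1) := Nat.mul_le_mul_right _ hg1.2
      have h7 : 2 * g * (y + 1) = 2 * (g * y) + 2 * g := by ring
      have h8 : 3 * u1 * (y + 1) = 3 * (u1 * y) + 3 * u1 := by ring
      omega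
    have hr1 : Z ≤ u1 * r + u1 := by
      have h2 := Nat.div_add_mod Z u1
      have h3 := Nat.mod_lt Z hu0
      rw [← hr] at h2
      omega
    have hem := hEM2 K n m d (A2 + B2) (u1 ::ₘ (A0 + B0)) P
      (A2.map (fun v => (v, 4 * v + 2)) + B2.map (fun v => (v, 4 * v)))
      ((u1, 2 * u1 + r + y) ::ₘ (A0.map (fun v => (v, 2 * v)) + B0.map (fun v => (v, 2 * v))))
      hHD hCR.1 ?_ ?_ ?_
    · show gd d ((2 * u1 + r + (X + (Multiset.map (fun _ : ℕ => r * g) 0).sum) / g) ::ₘ
        (Multiset.map (fun v => 2 * v + r) 0 + Multiset.map (fun v => 2 * v) 0 +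
        (A2.map (fun v => 4 * v + 2) + B2.map (fun v => 4 * v) +
        (A0.map (fun v => 2 * v) + B0.map (fun v => 2 * v) + P.map Prod.snd)))) = 0
      have h4 : (2 * u1 + r + (X + (Multiset.map (fun _ : ℕ => r * g) 0).sum) / g) ::ₘ
        (Multiset.map (fun v => 2 * v + r) 0 + Multiset.map (fun v => 2 * v) 0 +
        (A2.map (fun v => 4 * v + 2) + B2.map (fun v => 4 * v) +
        (A0.map (fun v => 2 * v) + B0.map (fun v => 2 * v) + P.map Prod.snd))) =
        (A2.map (fun v => (v, 4 * v + 2)) + B2.map (fun v => (v, 4 * v))).map Prod.snd +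
        ((u1, 2 * u1 + r + y) ::ₘ (A0.map (fun v => (v, 2 * v)) +
          B0.map (fun v => (v, 2 * v)))).map Prod.snd + P.map Prod.snd := by
        rw [Multiset.map_zero, Multiset.map_zero, Multiset.map_zero, Multiset.sum_zero,
          Nat.add_zero, ← hy]
        simp only [Multiset.map_cons, Multiset.map_add, Multiset.map_map, Function.comp_def]
        simp only [← Multiset.singleton_add]
        abel
      rw [h4]
      exact hem
    · simp only [Multiset.map_add, Multiset.map_map, Function.comp_def, Multiset.map_id']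
    · simp only [Multiset.map_cons, Multiset.map_add, Multiset.map_map, Function.comp_def,
        Multiset.map_id']
    · have hwt : wt (A2.map (fun v => (v, 4 * v + 2)) + B2.map (fun v => (v, 4 * v)))
        ((u1, 2 * u1 + r + y) ::ₘ (A0.map (fun v => (v, 2 * v)) +
          B0.map (fun v => (v, 2 * v)))) P =
          (4 * 4 * (A2.map fun v => v ^ 2).sum + 4 * 2 * A2.sum +
            4 * 4 * (B2.map fun v => v ^ 2).sum) +
          (2 * u1 * (2 * u1 + r + y) + (2 * 2 * (A0.map fun v => v ^ 2).sum +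
            2 * 2 * (B0.map fun v => v ^ 2).sum)) + (P.map fun p => p.1 * p.2).sum := by
        unfold wt
        simp only [Multiset.map_cons, Multiset.map_add, Multiset.map_map, Function.comp_def,
          Multiset.sum_cons, Multiset.sum_add, sum_quad, sum_quad0]
      rw [hwt, hms, ← hH, ← hL]
      refine fin_cmp K n m H L _ _ _ hK b3 b5 b6 b9 b10 ?_
      rw [hQ]
      have e1 : 2 * u1 * (2 * u1 + r + y) = 4 * u1 ^ 2 + 2 * (u1 * r) + 2 * (u1 * y) := by ring
      rw [e1]
      omega

end Pool.Agent.Helper90.UC.DRP
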