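import Pool.Agent.Helper27.UC.Goals

/-!
PROJECT UC: the gluing lemma with a general list and a general bound (helper90).
-/

set_option autoImplicit false

noncomputable section

namespace Pool.Agent.Helper90.UC

open Pool.Agent.Helper27.UC

/-- GLUE with other points `l` and a general `N` -/
def S_GLUE2 : Prop := ∀ (d m j N : ℕ) (l : Multiset ℕ), 1 ≤ m →
  gd d (rp j (2 * m) + l) ≤ N + j * m →
  (∀ i k, i + k + 1 = j →
    gd d ((2 * m + k + 1 + N / m) ::ₘ (rp i (2 * m + 1) + rp k (2 * m) + l)) = 0) →
  gd d (rp (4 * j) m + l) ≤ N

theorem iter (h1 : S_G1M) (d m N : ℕ) : ∀ (j : ℕ) (l : Multiset ℕ),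
    (∀ i k, i + k = j → gd d (rp i (2 * m + 1) + rp k (2 * m) + l) ≤ N + k * m) →
    gd d (rp (4 * j) m + l) ≤ N := by
  intro j
  induction j with
  | zero =>
    intro l h
    simpa using h 0 0 rfl
  | succ j ih =>
    intro l h
    have h2 : rp (4 * (j + 1)) m + l = rp (4 * j) m + (rp 4 m + l) := by
      rw [← add_assoc, ← Multiset.replicate_add]
      rfl
    rw [h2]
    apply ih
    intro i k hik
    have h3 : rp i (2 * m + 1) + rp k (2 * m) + (rp 4 m + l) =
        rp 4 m + (rp i (2 * m + 1) + rp k (2 * m) + l) := by
      rw [← add_assoc, ← add_assoc, ← add_assoc, add_comm (rp i (2 * m + 1) + rp k (2 * m)) (rp 4 m),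
        ← add_assoc]
    rw [h3]
    apply h1
    · have h4 := h (i + 1) k (by omega)
      have h5 : rp (i + 1) (2 * m + 1) + rp k (2 * m) + l =
          (2 * m + 1) ::ₘ (rp i (2 * m + 1) + rp k (2 * m) + l) := by
        unfold rp
        rw [Multiset.replicate_succ, Multiset.cons_add, Multiset.cons_add]
      rwa [h5] at h4
    · have h4 := h i (k + 1) (by omega)
      have h5 : rp i (2 * m + 1) + rp (k + 1) (2 * m) + l =
          (2 * m) ::ₘ (rp i (2 * m + 1) + rp k (2 * m) + l) := by
        unfold rp
        rw [Multiset.replicate_succ, Multiset.add_cons, Multiset.cons_add]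
      rw [h5] at h4
      refine h4.trans (le_of_eq ?_)
      ring

theorem glue2 (h1 : S_G1M) (h2 : S_G2M) : S_GLUE2 := by
  intro d m j N l hm hreg hemp
  apply iter h1
  -- the steps
  have hstep : ∀ i, i ≤ j → gd d (rp i (2 * m + 1) + rp (j - i) (2 * m) + l) ≤ N + (j - i) * m := by
    intro i
    induction i with
    | zero =>
      intro _
      have : rp 0 (2 * m + 1) + rp (j - 0) (2 * m) + l = rp j (2 * m) + l := by
        simp
      rw [this, Nat.sub_zero]
      exact hreg
    | succ i ih =>
      intro hi
      obtain ⟨k, hk⟩ : ∃ k, i + k + 1 = j := ⟨j - i - 1, by omega⟩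
      have hk1 : j - (i + 1) = k := by omega
      have hk2 : j - i = k + 1 := by omega
      have ih' := ih (by omega)
      rw [hk2] at ih'
      rw [hk1]
      set l0 := rp i (2 * m + 1) + rp k (2 * m) + l with hl0
      set a : ℕ → ℕ := fun t => gd d (t ::ₘ l0) with ha
      have ha1 : a (2 * m) ≤ N + (k + 1) * m := by
        have h5 : rp i (2 * m + 1) + rp (k + 1) (2 * m) + l = (2 * m) ::ₘ l0 := by
          rw [hl0]
          unfold rp
          rw [Multiset.replicate_succ, Multiset.add_cons, Multiset.cons_add]
        rwa [h5] at ih'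
      have ha2 : rp (i + 1) (2 * m + 1) + rp k (2 * m) + l = (2 * m + 1) ::ₘ l0 := by
        rw [hl0]
        unfold rp
        rw [Multiset.replicate_succ, Multiset.cons_add, Multiset.cons_add]
      rw [ha2]
      change a (2 * m + 1) ≤ N + k * m
      have ha3 : a (2 * m + k + 1 + N / m) = 0 := hemp i k hk
      by_cases hc : a (2 * m + 1) + m ≤ a (2 * m)
      · have : (k + 1) * m = k * m + m := by ring
        omega
      · push Not at hc
        have hclaim : ∀ T, a (2 * m + T) + 1 ≤ a (2 * m + T + 1) + m := by
          intro T
          induction T with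
          | zero => exact hc
          | succ T ihT =>
            have h5 := h2 d (2 * m + T) l0 (by
              change a (2 * m + T) ≤ a (2 * m + T + 1) + (2 * m + T)
              omega)
            change 2 * a (2 * m + T + 1) ≤ a (2 * m + T) + a (2 * m + T + 2) at h5
            change a (2 * m + (T + 1)) + 1 ≤ a (2 * m + (T + 1) + 1) + m
            have e1 : 2 * m + (T + 1) = 2 * m + T + 1 := rfl
            have e2 : 2 * m + (T + 1) + 1 = 2 * m + T + 2 := rfl
            rw [e2, e1]
            omega
        have hsum : ∀ T, a (2 * m + 1) + T ≤ a (2 * m + 1 + T) + T * m := by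
          intro T
          induction T with
          | zero => simp
          | succ T ihT =>
            have h5 := hclaim (T + 1)
            have e1 : 2 * m + (T + 1) = 2 * m + 1 + T := by ring
            have e2 : 2 * m + 1 + (T + 1) = 2 * m + 1 + T + 1 := by ring
            rw [e1] at h5
            rw [e2]
            have e3 : (T + 1) * m = T * m + m := by ring
            omega
        have h6 := hsum (k + N / m)
        have e4 : 2 * m + 1 + (k + N / m) = 2 * m + k + 1 + N / m := by ring
        rw [e4, ha3, zero_add] at h6
        have e5 : (k + N / m) * m = k * m + N / m * m := by ring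
        have e6 : N / m * m ≤ N := Nat.div_mul_le_self N m
        have h7 : a (2 * m + 1) ≤ (k + N / m) * m := le_trans (Nat.le_add_right _ _) h6
        rw [e5] at h7
        linarith
  intro i k hik
  have h5 := hstep i (by omega)
  have h6 : j - i = k := by omega
  rwa [h6] at h5

end Pool.Agent.Helper90.UC
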