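import Pool.Agent.Helper90.UC.GDR
import Pool.Agent.Helper90.UC.GLUE2
import Pool.Agent.Helper90.UC.ARIA
import Pool.Agent.Helper90.UN.Final

/-!
PROJECT UC: `n ≥ 257`, two levels of gluing (helper90).
-/

set_option autoImplicit false

noncomputable section

namespace Pool.Agent.Helper90.UC

open Module Pool.Agent.Helper97 Pool.Agent.Helper97.Nag Pool.Agent.Helper1.All Pool.Agent.Helper1.T1

open Pool.Agent.Helper27.UC (gd rp S_CNV S_G1M S_G2M)

theorem tri2 (x : ℕ) : 2 * (x + 1).choose 2 = x * (x + 1) := by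
  rw [Nat.choose_two_right, Nat.add_sub_cancel, mul_comm 2,
    Nat.div_mul_cancel (by rw [mul_comm]; exact (Nat.even_mul_succ_self x).two_dvd), mul_comm]

theorem frep {α : Type*} (p : α → Prop) [DecidablePred p] (n : ℕ) (a : α) :
    Multiset.filter p (Multiset.replicate n a) = if p a then Multiset.replicate n a else 0 := by
  split_ifs with h
  · rw [Multiset.filter_eq_self]
    intro b hb
    rw [Multiset.eq_of_mem_replicate hb]
    exact h
  · rw [Multiset.filter_eq_nil]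
    intro b hb
    rw [Multiset.eq_of_mem_replicate hb]
    exact h

/-- emptiness at the first level -/
theorem e1 (hC : S_CNV) (n m d s0 j1 B i k : ℕ) (hn : 64 ≤ n) (hn1 : n = 4 * j1 + s0)
    (hs0 : 2 ≤ s0) (hj1 : 2 ≤ j1) (h1 : n ≤ (4 * s0) ^ 2) (h2 : n ≤ (8 * j1) ^ 2)
    (hik : i + k + 1 = j1) (h3 : n * d ^ 2 < (n * m + 2 * j1 + 2 * B) ^ 2) :
    gd d ((2 * m + k + 1 + B) ::ₘ (rp i (2 * m + 1) + rp k (2 * m) + rp s0 m)) = 0 := by
  have h := emT hC 4 d ((0, 2 * m + k + 1 + B) ::ₘ (Multiset.replicate i ((0 : Fin 2), 2 * m + 1) +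
    Multiset.replicate k (0, 2 * m) + Multiset.replicate s0 (1, m))) ![2, 1] ![j1, s0]
    ![2 * m + k + 1 + B + (i * (2 * m + 1) + k * (2 * m)), s0 * m] ?_ ?_ (by norm_num)
    (by norm_num) ?_ n (by omega) ?_ ?_ ?_ ?_ ?_
  · simpa [Multiset.map_replicate] using h
  · rw [Fin.forall_fin_two]
    constructor
    · simp [Multiset.filter_add, frep]
      omega
    · simp [Multiset.filter_add, frep]
  · rw [Fin.forall_fin_two]
    constructor
    · simp [Multiset.filter_add, frep]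
    · simp [Multiset.filter_add, frep]
  · rw [Fin.forall_fin_two]
    constructor <;> simp
  · rw [Fin.sum_univ_two]
    simp
    omega
  · rw [Fin.forall_fin_two]
    constructor
    · simpa using hj1
    · simpa using hs0
  · rw [Fin.forall_fin_two]
    constructor
    · simp; omega
    · simp; omega
  · rw [Fin.forall_fin_two]
    constructor
    · simp only [Matrix.cons_val_zero]
      calc n ≤ (8 * j1) ^ 2 := h2
        _ = _ := by ring
    · simp only [Matrix.cons_val_one]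
      calc n ≤ (4 * s0) ^ 2 := h1
        _ = _ := by simp
  · rw [Fin.sum_univ_two]
    simp only [Matrix.cons_val_zero, Matrix.cons_val_one, Matrix.cons_val_fin_one]
    refine lt_of_lt_of_eq h3 ?_
    rw [hn1, ← hik]
    ring

/-- emptiness at the second level -/
theorem e2 (hC : S_CNV) (n m d s0 s1 j2 B i k : ℕ) (hn : 256 ≤ n)
    (hn1 : n = 16 * j2 + 4 * s1 + s0)
    (hs0 : 2 ≤ s0) (hs1 : 2 ≤ s1) (hj2 : 2 ≤ j2) (h1 : n ≤ (4 * s0) ^ 2) (h2 : n ≤ (8 * s1) ^ 2)
    (h4 : n ≤ (16 * j2) ^ 2)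
    (hik : i + k + 1 = j2) (h3 : n * d ^ 2 < (n * m + 4 * j2 + 4 * B) ^ 2) :
    gd d ((4 * m + k + 1 + B) ::ₘ (rp i (4 * m + 1) + rp k (4 * m) + (rp s1 (2 * m) + rp s0 m))) =
      0 := by
  have h := emT hC 4 d ((0, 4 * m + k + 1 + B) ::ₘ (Multiset.replicate i ((0 : Fin 3), 4 * m + 1) +
    Multiset.replicate k (0, 4 * m) + (Multiset.replicate s1 (1, 2 * m) +
      Multiset.replicate s0 (2, m)))) ![4, 2, 1] ![j2, s1, s0]
    ![4 * m + k + 1 + B + (i * (4 * m + 1) + k * (4 * m)), s1 * (2 * m), s0 * m] ?_ ?_ (by norm_num)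
    (by norm_num) ?_ n (by omega) ?_ ?_ ?_ ?_ ?_
  · simpa [Multiset.map_replicate] using h
  · rw [Fin.forall_fin_succ, Fin.forall_fin_two]
    refine ⟨?_, ?_, ?_⟩
    · simp [Multiset.filter_add, frep]
      omega
    · simp [Multiset.filter_add, frep]
    · simp [Multiset.filter_add, frep]
  · rw [Fin.forall_fin_succ, Fin.forall_fin_two]
    refine ⟨?_, ?_, ?_⟩
    · simp [Multiset.filter_add, frep]
    · simp [Multiset.filter_add, frep]
    · simp [Multiset.filter_add, frep]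
  · rw [Fin.forall_fin_succ, Fin.forall_fin_two]
    refine ⟨?_, ?_, ?_⟩ <;> simp
  · rw [Fin.sum_univ_three]
    simp
    omega
  · rw [Fin.forall_fin_succ, Fin.forall_fin_two]
    refine ⟨?_, ?_, ?_⟩
    · simpa using hj2
    · simpa using hs1
    · simpa using hs0
  · rw [Fin.forall_fin_succ, Fin.forall_fin_two]
    refine ⟨?_, ?_, ?_⟩
    · simp; omega
    · simp; omega
    · simp; omega
  · rw [Fin.forall_fin_succ, Fin.forall_fin_two]
    refine ⟨?_, ?_, ?_⟩
    · simp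
      refine h4.trans (le_of_eq ?_)
      ring
    · simp
      refine h2.trans (le_of_eq ?_)
      ring
    · simp
      exact h1
  · rw [Fin.sum_univ_three]
    simp
    refine lt_of_lt_of_eq h3 ?_
    rw [hn1, ← hik]
    ring

/-- the regular input -/
theorem r2 (hC : S_CNV) (m d s0 s1 j2 M : ℕ) (hs0 : 2 ≤ s0) (hs1 : 2 ≤ s1) (hj2 : 2 ≤ j2)
    (h1 : 4 * (4 * m + 1) < d + 3)
    (h2 : (4 * m + 1) * max (4 * (j2 * (4 * m + 1))) (d + 3) +
        (2 * m + 1) * max (4 * (s1 * (2 * m + 1))) (d + 3) +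
        (m + 1) * max (4 * (s0 * (m + 1))) (d + 3) < 4 * (d + 3) ^ 2)
    (h3 : (d + 2).choose 2 ≤ M + (j2 * (4 * m + 1).choose 2 + s1 * (2 * m + 1).choose 2 +
      s0 * (m + 1).choose 2)) :
    gd d (rp j2 (4 * m) + (rp s1 (2 * m) + rp s0 m)) ≤ M := by
  have h := rgT hC 4 d (Multiset.replicate j2 ((0 : Fin 3), 4 * m) +
    (Multiset.replicate s1 (1, 2 * m) + Multiset.replicate s0 (2, m))) ![4 * m + 1, 2 * m + 1, m + 1]
    ![j2, s1, s0] M (j2 * (4 * m + 1).choose 2 + s1 * (2 * m + 1).choose 2 +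
      s0 * (m + 1).choose 2) ?_ ?_ (by norm_num) (by norm_num) ?_ ?_ ?_ ?_ ?_ h3
  · simpa [Multiset.map_replicate] using h
  · rw [Fin.forall_fin_succ, Fin.forall_fin_two]
    refine ⟨?_, ?_, ?_⟩ <;> simp [Multiset.filter_add, frep]
  · intro p hp
    rw [Multiset.mem_add, Multiset.mem_add] at hp
    rcases hp with hp | hp | hp
    · rw [Multiset.eq_of_mem_replicate hp]; simp
    · rw [Multiset.eq_of_mem_replicate hp]; simp
    · rw [Multiset.eq_of_mem_replicate hp]; simp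
  · rw [Fin.forall_fin_succ, Fin.forall_fin_two]
    refine ⟨?_, ?_, ?_⟩ <;> simp
  · rw [Fin.forall_fin_succ, Fin.forall_fin_two]
    refine ⟨?_, ?_, ?_⟩ <;> simp <;> omega
  · rw [Fin.forall_fin_succ, Fin.forall_fin_two]
    refine ⟨?_, ?_, ?_⟩ <;> simp <;> omega
  · rw [Fin.sum_univ_three]
    simpa using h2
  · simp [Multiset.map_replicate]
    ring

/-- the two levels of gluing -/
theorem finA (hC : S_CNV) (hG : S_GLUE2) (n m d : ℕ) (hn : 257 ≤ n) (hm : 1 ≤ m)
    (h1 : n * m ^ 2 < d ^ 2) (h2 : (d + 3) ^ 2 < n * (m + 1) ^ 2)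
    (h3 : |((Nat.choose (d + 2) 2 : ℝ) - n * (Nat.choose (m + 1) 2 : ℝ))| <
      (√(n : ℝ) + 1) * m) :
    gd d (rp n m) ≤ (d + 2).choose 2 - n * (m + 1).choose 2 := by
  obtain ⟨s0, s1, j1, j2, a1, a2, a3, a4, a5, a6, b1, b2, b3, b4, c1, c2, c3, c4⟩ :=
    ariA n m d hn hm h1 h2 h3
  set N := (d + 2).choose 2 - n * (m + 1).choose 2 with hN
  have hn16 : n = 16 * j2 + 4 * s1 + s0 := by omega
  have hsplit : rp n m = rp (4 * j1) m + rp s0 m := by
    unfold rp
    rw [← Multiset.replicate_add, ← a1]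
  rw [hsplit]
  have t0 := tri2 m
  have t1 := tri2 (2 * m)
  have t2 := tri2 (4 * m)
  refine hG d m j1 N (rp s0 m) hm ?_ ?_
  · -- the first hypothesis
    have hsplit2 : rp j1 (2 * m) + rp s0 m =
        rp (4 * j2) (2 * m) + (rp s1 (2 * m) + rp s0 m) := by
      unfold rp
      rw [← add_assoc, ← Multiset.replicate_add, ← a2]
    rw [hsplit2]
    refine hG d (2 * m) j2 (N + j1 * m) (rp s1 (2 * m) + rp s0 m) (by omega) ?_ ?_
    · have e4 : 2 * (2 * m) = 4 * m := by ring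
      rw [e4]
      refine r2 hC m d s0 s1 j2 _ a3 a4 a5 c3 c4 ?_
      have h4 : (d + 2).choose 2 ≤ N + n * (m + 1).choose 2 := by
        rw [hN]; exact le_tsub_add
      refine h4.trans ?_
      have h5 : 2 * (n * (m + 1).choose 2) = 2 * (j1 * m + j2 * (2 * m) +
          (j2 * (4 * m + 1).choose 2 + s1 * (2 * m + 1).choose 2 + s0 * (m + 1).choose 2)) := by
        calc 2 * (n * (m + 1).choose 2) = n * (2 * (m + 1).choose 2) := by ring
          _ = n * (m * (m + 1)) := by rw [t0]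
          _ = 2 * (j1 * m + j2 * (2 * m)) + (j2 * (4 * m * (4 * m + 1)) +
              s1 * (2 * m * (2 * m + 1)) + s0 * (m * (m + 1))) := by
              rw [hn16, a2]; ring
          _ = 2 * (j1 * m + j2 * (2 * m)) + (j2 * (2 * (4 * m + 1).choose 2) +
              s1 * (2 * (2 * m + 1).choose 2) + s0 * (2 * (m + 1).choose 2)) := by
              rw [t0, t1, t2]
          _ = _ := by ring
      omega
    · intro i k hik
      have e4 : 2 * (2 * m) = 4 * m := by ring
      rw [e4]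
      refine e2 hC n m d s0 s1 j2 ((N + j1 * m) / (2 * m)) i k (by omega) hn16 a3 a4 a5 b1 b2 b4
        hik ?_
      refine lt_of_lt_of_le c2 (Nat.pow_le_pow_left ?_ 2)
      have h6 : j1 / 2 ≤ (N + j1 * m) / (2 * m) := by
        rw [← Nat.mul_div_mul_right j1 2 (show 0 < m by omega)]
        exact Nat.div_le_div_right (Nat.le_add_left _ _)
      omega
  · intro i k hik
    refine e1 hC n m d s0 j1 (N / m) i k (by omega) a1 a3 a6 b1 b3 hik ?_
    exact lt_of_lt_of_le c1 (Nat.pow_le_pow_left (Nat.le_add_right _ _) 2)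

/-- `n ≥ 257`: no exceptional degree -/
theorem nonSpA (hC : S_CNV) (h1M : S_G1M) (h2M : S_G2M) (G : UN.UGoals) (n m d : ℕ)
    (hn : 257 ≤ n) : UN.NonSp n m d := by
  rcases Nat.eq_zero_or_pos m with hm | hm
  · subst hm
    exact UN.nonSp_zero n d
  by_cases hsq : IsSquare n
  · exact G.sqc n m d (by omega) hsq
  by_cases h1 : d ^ 2 ≤ n * m ^ 2
  · exact UN.out n m d (by omega) hsq hm (Or.inl h1)
  by_cases h2 : n * (m + 1) ^ 2 ≤ (d + 3) ^ 2
  · exact UN.out n m d (by omega) hsq hm (Or.inr h2)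
  by_contra hcon
  have h3 := UN.crit G n m d (by omega) hsq hm (not_le.1 h1) (not_le.1 h2) hcon
  apply hcon
  have h4 := finA hC (glue2 h1M h2M) n m d hn hm (not_le.1 h1) (not_le.1 h2) h3
  obtain ⟨P, hP⟩ := hC.2 n m d _ h4
  refine UN.nonSp_of n m d _ ⟨ℂ, inferInstance, inferInstance, P, hP⟩ ?_
  have h5 : ((n * (m + 1).choose 2 : ℕ) : ℤ) = n * ((m + 1).choose 2 : ℤ) := by push_cast; ring
  rcases le_total (n * (m + 1).choose 2) ((d + 2).choose 2) with h | h
  · rw [Nat.cast_sub h, h5]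
    exact le_max_left _ _
  · rw [Nat.sub_eq_zero_of_le h]
    exact le_max_right _ _

end Pool.Agent.Helper90.UC
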