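import Pool.Agent.Helper90.UC.CHK
import Pool.Agent.Helper90.UC.MONO

/-!
PROJECT UC: `65 ≤ n ≤ 256` (helper90).
-/

set_option autoImplicit false

noncomputable section

namespace Pool.Agent.Helper90.UC

open Module Pool.Agent.Helper97 Pool.Agent.Helper97.Nag Pool.Agent.Helper1.All Pool.Agent.Helper1.T1

open Pool.Agent.Helper27.UC (gd rp S_CNV S_G1M S_G2M)

/-- the regular input at the first level, with `q` and `p` points less -/
theorem r1 (hC : S_CNV) (m d j s q p M : ℕ) (hj : q + 1 ≤ j) (hs : p + 1 ≤ s)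
    (h1 : 4 * (2 * m + 1) < d + 3)
    (h2 : (2 * m + 1) * max (4 * ((j - q) * (2 * m + 1))) (d + 3) +
        (m + 1) * max (4 * ((s - p) * (m + 1))) (d + 3) < 4 * (d + 3) ^ 2)
    (h3 : (d + 2).choose 2 ≤ M + ((j - q) * (2 * m + 1).choose 2 + (s - p) * (m + 1).choose 2)) :
    gd d (rp j (2 * m) + rp s m) ≤ M := by
  have h := rgT hC 4 d (Multiset.replicate (j - q) ((0 : Fin 2), 2 * m) +
    Multiset.replicate (s - p) (1, m)) ![2 * m + 1, m + 1]
    ![j - q, s - p] M ((j - q) * (2 * m + 1).choose 2 + (s - p) * (m + 1).choose 2)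
    ?_ ?_ (by norm_num) (by norm_num) ?_ ?_ ?_ ?_ ?_ h3
  · have h4 : rp j (2 * m) + rp s m = (rp (j - q) (2 * m) + rp (s - p) m) +
        (rp q (2 * m) + rp p m) := by
      have e1 : rp j (2 * m) = rp (j - q) (2 * m) + rp q (2 * m) := by
        unfold rp
        rw [← Multiset.replicate_add]
        congr 1
        omega
      have e2 : rp s m = rp (s - p) m + rp p m := by
        unfold rp
        rw [← Multiset.replicate_add]
        congr 1
        omega
      rw [e1, e2]
      abel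
    rw [h4]
    refine (gd_mono d _ _).trans ?_
    simpa [Multiset.map_replicate] using h
  · rw [Fin.forall_fin_two]
    constructor <;> simp [Multiset.filter_add, frep]
  · intro x hx
    rw [Multiset.mem_add] at hx
    rcases hx with hx | hx
    · rw [Multiset.eq_of_mem_replicate hx]; simp
    · rw [Multiset.eq_of_mem_replicate hx]; simp
  · rw [Fin.forall_fin_two]
    constructor <;> simp
  · rw [Fin.forall_fin_two]
    constructor <;> simp <;> omega
  · rw [Fin.forall_fin_two]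
    constructor <;> simp <;> omega
  · rw [Fin.sum_univ_two]
    simpa using h2
  · simp [Multiset.map_replicate]

/-- the assembly for one level, `s` small squares -/
theorem lev (hC : S_CNV) (hG : S_GLUE2) (n m d j s q p : ℕ) (hn : 64 ≤ n) (hm : 1 ≤ m)
    (hn1 : n = 4 * j + s) (hs : 2 ≤ s) (hj : 2 ≤ j) (hsq : n ≤ (4 * s) ^ 2) (hjq : n ≤ (8 * j) ^ 2)
    (hE : n * d ^ 2 < (n * m + 2 * j) ^ 2)
    (hq : q + 1 ≤ j) (hp : p + 1 ≤ s) (h1 : 4 * (2 * m + 1) < d + 3)
    (h2 : (2 * m + 1) * max (4 * ((j - q) * (2 * m + 1))) (d + 3) +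
        (m + 1) * max (4 * ((s - p) * (m + 1))) (d + 3) < 4 * (d + 3) ^ 2)
    (h3 : q + p = 0 ∨ (d + 2).choose 2 + q * (2 * m + 1).choose 2 + p * (m + 1).choose 2 ≤
      n * (m + 1).choose 2) :
    gd d (rp n m) ≤ (d + 2).choose 2 - n * (m + 1).choose 2 := by
  set N := (d + 2).choose 2 - n * (m + 1).choose 2 with hN
  have hsplit : rp n m = rp (4 * j) m + rp s m := by
    unfold rp
    rw [← Multiset.replicate_add, ← hn1]
  rw [hsplit]
  have t0 := tri2 m
  have t1 := tri2 (2 * m)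
  refine hG d m j N (rp s m) hm ?_ ?_
  · refine r1 hC m d j s q p _ hq hp h1 h2 ?_
    have h4 : (d + 2).choose 2 ≤ N + n * (m + 1).choose 2 := by
      rw [hN]; exact le_tsub_add
    have h5 : n * (m + 1).choose 2 = j * (2 * m + 1).choose 2 + j * m + s * (m + 1).choose 2 := by
      have : 2 * (n * (m + 1).choose 2) =
          2 * (j * (2 * m + 1).choose 2 + j * m + s * (m + 1).choose 2) := by
        calc 2 * (n * (m + 1).choose 2) = n * (2 * (m + 1).choose 2) := by ring
          _ = n * (m * (m + 1)) := by rw [t0]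
          _ = j * (2 * m * (2 * m + 1)) + 2 * (j * m) + s * (m * (m + 1)) := by
              rw [hn1]; ring
          _ = j * (2 * (2 * m + 1).choose 2) + 2 * (j * m) + s * (2 * (m + 1).choose 2) := by
              rw [t0, t1]
          _ = _ := by ring
      omega
    rcases h3 with h3 | h3
    · have hq0 : q = 0 := by omega
      have hp0 : p = 0 := by omega
      rw [hq0, hp0, Nat.sub_zero, Nat.sub_zero]
      rw [h5] at h4
      omega
    · rw [h5] at h3
      have e1 : j * (2 * m + 1).choose 2 = (j - q) * (2 * m + 1).choose 2 +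
          q * (2 * m + 1).choose 2 := by
        rw [← add_mul]
        congr 1
        omega
      have e2 : s * (m + 1).choose 2 = (s - p) * (m + 1).choose 2 + p * (m + 1).choose 2 := by
        rw [← add_mul]
        congr 1
        omega
      rw [e1, e2] at h3
      omega
  · intro i k hik
    refine e1 hC n m d s j (N / m) i k hn hn1 hs hj hsq hjq hik ?_
    exact lt_of_lt_of_le hE (Nat.pow_le_pow_left (Nat.le_add_right _ _) 2)

/-- the window, in natural numbers -/
theorem win_nat (n m d : ℕ) (h3 : |((Nat.choose (d + 2) 2 : ℝ) - n * (Nat.choose (m + 1) 2 : ℝ))| <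
      (√(n : ℝ) + 1) * m) (hm : 1 ≤ m) (hn : 1 ≤ n) :
    (n * (m * (m + 1) / 2) - (d + 1) * (d + 2) / 2 - m) ^ 2 < n * m ^ 2 := by
  have t0 := tri2 m
  have t1 := tri2 (d + 1)
  have e0 : m * (m + 1) / 2 = (m + 1).choose 2 := by omega
  have e1 : (d + 1) * (d + 2) / 2 = (d + 2).choose 2 := by
    have : (d + 1) * (d + 1 + 1) = 2 * (d + 1 + 1).choose 2 := t1.symm
    have h : (d + 1) * (d + 2) = 2 * (d + 2).choose 2 := this
    omega
  rw [e0, e1]
  rcases le_or_gt (n * (m + 1).choose 2 - (d + 2).choose 2) m with h | h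
  · rw [Nat.sub_eq_zero_of_le h]
    have : 0 < n * m ^ 2 := by positivity
    simpa using this
  · have hlt : (d + 2).choose 2 < n * (m + 1).choose 2 := by omega
    rw [abs_lt] at h3
    have h4 : ((n * (m + 1).choose 2 - (d + 2).choose 2 - m : ℕ) : ℝ) <
        √(n : ℝ) * m := by
      rw [Nat.cast_sub h.le, Nat.cast_sub hlt.le]
      push_cast
      linarith [h3.1]
    have h5 : ((n * (m + 1).choose 2 - (d + 2).choose 2 - m : ℕ) : ℝ) ^ 2 <
        (√(n : ℝ) * m) ^ 2 := pow_lt_pow_left₀ h4 (Nat.cast_nonneg _) (by norm_num)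
    rw [mul_pow, Real.sq_sqrt (Nat.cast_nonneg n)] at h5
    exact_mod_cast h5

/-- the large multiplicities -/
theorem big (n m d j s : ℕ) (hn : 65 ≤ n) (hn2 : n ≤ 256) (hm : 13 ≤ m)
    (hns : n = 4 * j + s) (hss : n ≤ (4 * s) ^ 2) (hj : 2 ≤ j)
    (hgap : (n : ℝ) / 4 + 3 * s / 4 ≤ m * (√(n : ℝ) - 2 - s) + 7) (hs16 : s ≤ 16)
    (h2 : (d + 3) ^ 2 < n * (m + 1) ^ 2)
    (hlow : (n : ℝ) * m ^ 2 + m * (n + √(n : ℝ) - 2) + 7 < ((d : ℝ) + 3) ^ 2) :
    (2 * m + 1) * max (4 * (j * (2 * m + 1))) (d + 3) +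
        (m + 1) * max (4 * (s * (m + 1))) (d + 3) < 4 * (d + 3) ^ 2 := by
  set r : ℝ := √(n : ℝ) with hr
  have hn' : (65 : ℝ) ≤ n := by exact_mod_cast hn
  have hn2' : (n : ℝ) ≤ 256 := by exact_mod_cast hn2
  have hm' : (13 : ℝ) ≤ m := by exact_mod_cast hm
  have hr2 : r ^ 2 = n := Real.sq_sqrt (by linarith)
  have hr0 : 0 ≤ r := Real.sqrt_nonneg _
  have hr16 : r ≤ 16 := by
    by_contra hcon
    push Not at hcon
    nlinarith
  have hr8 : 8 ≤ r := by
    by_contra hcon
    push Not at hcon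
    nlinarith
  have hdm : (d : ℝ) + 3 < r * (m + 1) := by
    have h4 : ((d : ℝ) + 3) ^ 2 < (r * (m + 1)) ^ 2 := by
      rw [mul_pow, hr2]
      exact_mod_cast h2
    exact lt_of_pow_lt_pow_left₀ 2 (by positivity) h4
  have hsr : r ≤ 4 * s := by
    have h4 : r ^ 2 ≤ (4 * (s : ℝ)) ^ 2 := by
      rw [hr2]
      exact_mod_cast hss
    exact le_of_sq_le_sq h4 (by positivity)
  have hnsr : (n : ℝ) = 4 * j + s := by exact_mod_cast hns
  have hs16' : (s : ℝ) ≤ 16 := by exact_mod_cast hs16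
  have e0 : max (4 * (s * (m + 1))) (d + 3) ≤ 4 * (s * (m + 1)) := by
    apply max_le le_rfl
    have q1 : r * (m + 1) ≤ 4 * s * ((m : ℝ) + 1) :=
      mul_le_mul_of_nonneg_right hsr (by positivity)
    have : (d : ℝ) + 3 ≤ 4 * (s * (m + 1)) := by linarith
    exact_mod_cast this
  have e1 : max (4 * (j * (2 * m + 1))) (d + 3) ≤ 4 * (j * (2 * m + 1)) := by
    apply max_le le_rfl
    have q1 : r * (m + 1) ≤ 16 * ((m : ℝ) + 1) :=
      mul_le_mul_of_nonneg_right hr16 (by positivity)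
    have q2 : (12 : ℝ) ≤ j := by linarith
    have q3 : 12 * (m : ℝ) ≤ j * m := mul_le_mul_of_nonneg_right q2 (by positivity)
    have : (d : ℝ) + 3 ≤ 4 * (j * (2 * m + 1)) := by linarith
    exact_mod_cast this
  have f0 := Nat.mul_le_mul_left (m + 1) e0
  have f1 := Nat.mul_le_mul_left (2 * m + 1) e1
  refine lt_of_le_of_lt (Nat.add_le_add f1 f0) ?_
  have key : (2 * (m : ℝ) + 1) * (4 * (j * (2 * m + 1))) + (m + 1) * (4 * (s * (m + 1))) <
      4 * ((d : ℝ) + 3) ^ 2 := by
    have g1 : (2 * (m : ℝ) + 1) * (4 * (j * (2 * m + 1))) + (m + 1) * (4 * (s * (m + 1))) =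
        4 * ((n : ℝ) * (m + 1 / 2) ^ 2 + s * (m + 3 / 4)) := by
      rw [hnsr]
      ring
    rw [g1]
    linarith
  exact_mod_cast key

end Pool.Agent.Helper90.UC
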