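import Pool.Agent.Helper90.UC.FINC

/-!
PROJECT UC: `65 ≤ n ≤ 256`, the end (helper90).
-/

set_option autoImplicit false

noncomputable section

namespace Pool.Agent.Helper90.UC

open Pool.Agent.Helper27.UC (gd rp S_CNV S_G1M S_G2M)

/-- the gap -/
theorem gap (n m s : ℕ) (hn : 65 ≤ n) (hn2 : n ≤ 256) (hm : 13 ≤ m)
    (hs : (s = 4) ∨ (s = 5) ∨ (s = 3 ∧ n ≤ 144) ∨ (s = 7 ∧ 145 ≤ n) ∨ (s = 6 ∧ 94 ≤ n) ∨
      (s = 6 ∧ 66 ≤ n ∧ 114 ≤ m)) :
    (n : ℝ) / 4 + 3 * s / 4 ≤ m * (√(n : ℝ) - 2 - s) + 7 := by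
  set r : ℝ := √(n : ℝ) with hr
  have hn' : (65 : ℝ) ≤ n := by exact_mod_cast hn
  have hn2' : (n : ℝ) ≤ 256 := by exact_mod_cast hn2
  have hm' : (13 : ℝ) ≤ m := by exact_mod_cast hm
  have hr2 : r ^ 2 = n := Real.sq_sqrt (by linarith)
  have hr0 : 0 ≤ r := Real.sqrt_nonneg _
  have hr16 : r ≤ 16 := Real.sqrt_le_iff.2 ⟨by norm_num, by linarith⟩
  have hr8 : 8.06 ≤ r := Real.le_sqrt_of_sq_le (by norm_num; linarith)
  rcases hs with hs | hs | ⟨hs, h⟩ | ⟨hs, h⟩ | ⟨hs, h⟩ | ⟨hs, h, h'⟩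
  · subst hs
    have h1 : 13 * (r - 2 - 4) ≤ m * (r - 2 - 4) := mul_le_mul_of_nonneg_right hm' (by linarith)
    have h2 : 0 ≤ (r - 8.06) * (16 - r) := mul_nonneg (by linarith) (by linarith)
    push_cast
    nlinarith
  · subst hs
    have h1 : 13 * (r - 2 - 5) ≤ m * (r - 2 - 5) := mul_le_mul_of_nonneg_right hm' (by linarith)
    have h2 : 0 ≤ (r - 8.06) * (16 - r) := mul_nonneg (by linarith) (by linarith)
    push_cast
    nlinarith
  · subst hs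
    have h1 : 13 * (r - 2 - 3) ≤ m * (r - 2 - 3) := mul_le_mul_of_nonneg_right hm' (by linarith)
    have h2 : 0 ≤ (r - 8.06) * (16 - r) := mul_nonneg (by linarith) (by linarith)
    push_cast
    nlinarith
  · subst hs
    have h0 : (145 : ℝ) ≤ n := by exact_mod_cast h
    have hr12 : 12 ≤ r := Real.le_sqrt_of_sq_le (by norm_num; linarith)
    have h1 : 13 * (r - 2 - 7) ≤ m * (r - 2 - 7) := mul_le_mul_of_nonneg_right hm' (by linarith)
    have h2 : 0 ≤ (r - 12) * (16 - r) := mul_nonneg (by linarith) (by linarith)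
    push_cast
    nlinarith
  · subst hs
    have h0 : (94 : ℝ) ≤ n := by exact_mod_cast h
    have hr12 : 9.69 ≤ r := Real.le_sqrt_of_sq_le (by norm_num; linarith)
    have h1 : 13 * (r - 2 - 6) ≤ m * (r - 2 - 6) := mul_le_mul_of_nonneg_right hm' (by linarith)
    have h2 : 0 ≤ (r - 9.69) * (16 - r) := mul_nonneg (by linarith) (by linarith)
    push_cast
    nlinarith
  · subst hs
    have h0 : (66 : ℝ) ≤ n := by exact_mod_cast h
    have h0' : (114 : ℝ) ≤ m := by exact_mod_cast h'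
    have hr12 : 8.124 ≤ r := Real.le_sqrt_of_sq_le (by norm_num; linarith)
    have h1 : 114 * (r - 2 - 6) ≤ m * (r - 2 - 6) := mul_le_mul_of_nonneg_right h0' (by linarith)
    have h2 : 0 ≤ (r - 8.124) * (16 - r) := mul_nonneg (by linarith) (by linarith)
    push_cast
    nlinarith

theorem okB_spec {n m d : ℕ} (h : okB n m d = true) (h1 : n * m ^ 2 < d ^ 2)
    (h2 : (d + 3) ^ 2 < n * (m + 1) ^ 2)
    (h3 : (n * (m * (m + 1) / 2) - (d + 1) * (d + 2) / 2 - m) ^ 2 < n * m ^ 2) :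
    ∃ q p : ℕ, q < 2 ∧ p + 1 ≤ sel n ∧
      (q + p = 0 ∨ (d + 1) * (d + 2) / 2 + q * (m * (2 * m + 1)) + p * (m * (m + 1) / 2) ≤
        n * (m * (m + 1) / 2)) ∧
      (2 * m + 1) * max (4 * (((n - sel n) / 4 - q) * (2 * m + 1))) (d + 3) +
        (m + 1) * max (4 * ((sel n - p) * (m + 1))) (d + 3) < 4 * (d + 3) ^ 2 := by
  unfold okB at h
  rw [decide_eq_true h1, decide_eq_true h2, decide_eq_true h3] at h
  simp only [Bool.not_true, Bool.false_or, List.any_eq_true, List.mem_range, Bool.and_eq_true,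
    decide_eq_true_eq] at h
  obtain ⟨q, hq, p, -, ⟨hp, h4⟩, h5⟩ := h
  exact ⟨q, p, hq, hp, h4, h5⟩

theorem sel_spec (n : ℕ) (hn : 65 ≤ n) (hn2 : n ≤ 256) :
    n = 4 * ((n - sel n) / 4) + sel n ∧ 3 ≤ sel n ∧ sel n ≤ 7 ∧ n ≤ (4 * sel n) ^ 2 ∧
      (sel n = 7 → 145 ≤ n) ∧ (sel n = 6 → n % 4 = 2) ∧ (sel n = 3 → n ≤ 144) := by
  unfold sel
  split_ifs <;> refine ⟨?_, ?_, ?_, ?_, ?_, ?_, ?_⟩ <;> omega

/-- `65 ≤ n ≤ 255`, `m ≥ 2` -/
theorem finC (hC : S_CNV) (hG : S_GLUE2) (n m d : ℕ) (hn : 65 ≤ n) (hn2 : n ≤ 255) (hm : 2 ≤ m)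
    (h1 : n * m ^ 2 < d ^ 2) (h2 : (d + 3) ^ 2 < n * (m + 1) ^ 2)
    (h3 : |((Nat.choose (d + 2) 2 : ℝ) - n * (Nat.choose (m + 1) 2 : ℝ))| <
      (√(n : ℝ) + 1) * m) :
    gd d (rp n m) ≤ (d + 2).choose 2 - n * (m + 1).choose 2 := by
  have hlow := lowd n m d h1 h3
  have hupp := uppd n m d (by omega) h3 (by omega)
  obtain ⟨a1, a2, a3, a4, a5, a6, a7⟩ := sel_spec n hn (by omega)
  set s := sel n with hs
  set j := (n - s) / 4 with hj
  have hj14 : 14 ≤ j := by omega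
  have hr2 : √(n : ℝ) ^ 2 = n := Real.sq_sqrt (Nat.cast_nonneg n)
  have hn' : (65 : ℝ) ≤ n := by exact_mod_cast hn
  have hm' : (2 : ℝ) ≤ m := by exact_mod_cast hm
  have hr8 : 8.06 ≤ √(n : ℝ) := Real.le_sqrt_of_sq_le (by norm_num; linarith)
  have hsr : (s : ℝ) ≤ √(n : ℝ) - 2 := by
    rcases (by omega : s ≤ 6 ∨ s = 7) with h | h
    · have h' : (s : ℝ) ≤ 6 := by exact_mod_cast h
      linarith
    · have h0 : (145 : ℝ) ≤ n := by exact_mod_cast a5 h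
      have hr12 : 12 ≤ √(n : ℝ) :=
        Real.le_sqrt_of_sq_le (by rw [show (12 : ℝ) ^ 2 = 144 by norm_num]; linarith)
      rw [h]
      push_cast
      linarith
  have hE : n * d ^ 2 < (n * m + 2 * j) ^ 2 := by
    have h4 : √(n : ℝ) * d < ((n * m + 2 * j : ℕ) : ℝ) := by
      have h5 : (n : ℝ) = 4 * j + s := by exact_mod_cast a1
      push_cast
      linarith
    have h6 : (√(n : ℝ) * d) ^ 2 < ((n * m + 2 * j : ℕ) : ℝ) ^ 2 :=
      pow_lt_pow_left₀ h4 (by positivity) (by norm_num)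
    rw [mul_pow, hr2] at h6
    exact_mod_cast h6
  have hd4 : 4 * (2 * m + 1) < d + 3 := by
    have : (4 : ℝ) * (2 * m + 1) < d + 3 := by
      by_contra hcon
      push Not at hcon
      have q1 : ((d : ℝ) + 3) ^ 2 ≤ (4 * (2 * m + 1)) ^ 2 := pow_le_pow_left₀ (by positivity) hcon 2
      have q2 : (65 : ℝ) * m ^ 2 ≤ n * m ^ 2 := mul_le_mul_of_nonneg_right hn' (by positivity)
      have q3 : (65 : ℝ) * m ≤ n * m := mul_le_mul_of_nonneg_right hn' (by positivity)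
      have q4 : 8.06 * (m : ℝ) ≤ √(n : ℝ) * m := mul_le_mul_of_nonneg_right hr8 (by positivity)
      nlinarith
    exact_mod_cast this
  have hok : ∃ q p : ℕ, q < 2 ∧ p + 1 ≤ s ∧
      (q + p = 0 ∨ (d + 1) * (d + 2) / 2 + q * (m * (2 * m + 1)) + p * (m * (m + 1) / 2) ≤
        n * (m * (m + 1) / 2)) ∧
      (2 * m + 1) * max (4 * ((j - q) * (2 * m + 1))) (d + 3) +
        (m + 1) * max (4 * ((s - p) * (m + 1))) (d + 3) < 4 * (d + 3) ^ 2 := by
    have hw := win_nat n m d h3 (by omega) (by omega)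
    rcases (by omega : m < 13 ∨ (13 ≤ m ∧ m < 114 ∧ n ≤ 90 ∧ n % 4 = 2) ∨
      (13 ≤ m ∧ (114 ≤ m ∨ 90 < n ∨ n % 4 ≠ 2))) with h | ⟨h, h', h'', h4⟩ | ⟨h, h'⟩
    · exact okB_spec (check1 n m d hn hn2 hm h h1 h2) h1 h2 hw
    · exact okB_spec (check2 n m d hn h'' h4 h h' h1 h2) h1 h2 hw
    · refine ⟨0, 0, by norm_num, by omega, Or.inl rfl, ?_⟩
      rw [Nat.sub_zero, Nat.sub_zero]
      refine big n m d j s hn (by omega) h a1 a4 (by omega) ?_ (by omega) h2 hlow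
      apply gap n m s hn (by omega) h
      omega
  obtain ⟨q, p, hq, hp, h4, h5⟩ := hok
  refine lev hC hG n m d j s q p (by omega) (by omega) a1 (by omega) (by omega) a4 ?_ hE
    (by omega) hp hd4 h5 ?_
  · have : (8 * 14) ^ 2 ≤ (8 * j) ^ 2 := Nat.pow_le_pow_left (by omega) 2
    omega
  · have t0 := tri2 m
    have t1 := tri2 (d + 1)
    have t2 := tri2 (2 * m)
    have e0 : m * (m + 1) / 2 = (m + 1).choose 2 := by omega
    have e1 : (d + 1) * (d + 2) / 2 = (d + 2).choose 2 := by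
      have h : (d + 1) * (d + 2) = 2 * (d + 2).choose 2 := t1.symm
      omega
    have e2 : m * (2 * m + 1) = (2 * m + 1).choose 2 := by
      have : 2 * m * (2 * m + 1) = 2 * (m * (2 * m + 1)) := by ring
      omega
    rw [e0, e1, e2] at h4
    exact h4

end Pool.Agent.Helper90.UC
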