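import Pool.Agent.Helper1.T1.All2
import Pool.Agent.Helper1.T1.All4
import Pool.Agent.Helper27.UC.Defs

/-!
PROJECT UC: rows of squares; the empty and the regular side for rows of points (helper90).
-/

set_option autoImplicit false

noncomputable section

namespace Pool.Agent.Helper90.UC

open Module Pool.Agent.Helper97 Pool.Agent.Helper97.Nag Pool.Agent.Helper1.All Pool.Agent.Helper1.T1

open Pool.Agent.Helper27.UC (gd rp)

/-- a row of squares -/
theorem cut_row {n : ℕ} (μ : Fin n → ℝ) (a : ℝ) (ha : 0 < a) (A : Finset (Fin n)) (hA : A.Nonempty)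
    (h : ∀ i ∈ A, μ i = a) : Cut μ μ (A.card * a) a A := by
  classical
  induction hA using Finset.Nonempty.cons_induction with
  | singleton i =>
    have h1 : μ i = a := h i (Finset.mem_singleton_self i)
    have h2 := Cut.piece (w := μ) (h := μ) i (by rw [h1]; exact ha) (by rw [h1]; exact ha)
    rw [h1] at h2
    rwa [Finset.card_singleton, Nat.cast_one, one_mul]
  | cons i s hi hs ih =>
    have h1 : μ i = a := h i (Finset.mem_cons_self i s)
    have h2 := Cut.piece (w := μ) (h := μ) i (by rw [h1]; exact ha) (by rw [h1]; exact ha)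
    rw [h1] at h2
    have h3 := ih fun j hj => h j (Finset.mem_cons_of_mem hj)
    have h4 := Cut.hor a (s.card * a) a {i} s (Finset.disjoint_singleton_left.2 hi) h2 h3
    have h5 : a + (s.card : ℝ) * a = ((Finset.cons i s hi).card : ℝ) * a := by
      rw [Finset.card_cons]; push_cast; ring
    have h6 : ({i} : Finset (Fin n)) ∪ s = Finset.cons i s hi := by
      rw [Finset.cons_eq_insert, Finset.insert_eq]
    rw [← h5, ← h6]
    exact h4

section

variable {n c : ℕ} (k d : ℕ) (m : Fin n → ℕ) (row : Fin n → Fin c) (a : Fin c → ℕ)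

/-- the points of the row `l` -/
def rw_ {n c : ℕ} (row : Fin n → Fin c) (l : Fin c) : Finset (Fin n) :=
  Finset.univ.filter fun i => row i = l

theorem rw_disj (row : Fin n → Fin c) (l l' : Fin c) (h : l ≠ l') :
    Disjoint (rw_ row l) (rw_ row l') := by
  rw [Finset.disjoint_left]
  intro i hi hi'
  rw [rw_, Finset.mem_filter] at hi hi'
  exact h (hi.2.symm.trans hi'.2)

theorem cells (hk : 3 ≤ k) (hc : 2 * c ≤ (k - 1) * (k - 2)) (ha : ∀ l, 0 < a l)
    (hne : ∀ l, 1 ≤ (rw_ row l).card) :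
    Cells k (fun i => (a (row i) : ℝ)) (fun i => (a (row i) : ℝ))
      (fun l => ((rw_ row l).card : ℝ) * a l) (fun l => (a l : ℝ)) (rw_ row) := by
  refine ⟨hk, hc, rw_disj row, fun l => ?_⟩
  apply cut_row
  · exact_mod_cast ha l
  · exact Finset.card_pos.1 (hne l)
  · intro i hi
    rw [rw_, Finset.mem_filter] at hi
    simp only [hi.2]

/-- the empty side -/
theorem emp_row (hk : 3 ≤ k) (hc : 2 * c ≤ (k - 1) * (k - 2)) (ha : ∀ l, 0 < a l) (D : ℕ)
    (hD : 0 < D) (hDs : D = ∑ l, (rw_ row l).card * a l ^ 2)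
    (h2 : ∀ l, 2 ≤ (rw_ row l).card)
    (h3 : ∀ l, (k * a l) ^ 2 ≤ D) (h4 : ∀ l, D ≤ (k * ((rw_ row l).card * a l)) ^ 2)
    (h5 : D * d ^ 2 < (∑ l, a l * ∑ i ∈ rw_ row l, m i) ^ 2) : GenDim d m 0 := by
  have hcl := cells k row a hk hc ha fun l => le_trans (by norm_num) (h2 l)
  have hDr : (0 : ℝ) < D := by exact_mod_cast hD
  have hsq : √(D : ℝ) ^ 2 = D := Real.sq_sqrt hDr.le
  refine (NEF3.gen all_EMPT2 all_NEFA2 all_BIG all_AREA nGoals.trk hcl.1 hcl.2.1 hcl.2.2.1
    hcl.2.2.2 (D := √(D : ℝ)) (Real.sqrt_pos.2 hDr) ?_ ?_ d m ?_).1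
  · rw [hsq, hDs]
    push_cast
    apply Finset.sum_congr rfl
    intro l _
    ring
  · intro l
    refine ⟨?_, ?_, ?_⟩
    · apply Real.le_sqrt_of_sq_le
      have := h3 l
      exact_mod_cast this
    · rw [Real.sqrt_le_left (by positivity)]
      have := h4 l
      exact_mod_cast this
    · have h6 : (0 : ℝ) < a l := by exact_mod_cast ha l
      have h7 : (2 : ℝ) ≤ (rw_ row l).card := by exact_mod_cast h2 l
      nlinarith
  · have h6 : ∑ l, ∑ i ∈ rw_ row l, (a (row i) : ℝ) * m i =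
        ((∑ l, a l * ∑ i ∈ rw_ row l, m i : ℕ) : ℝ) := by
      push_cast
      apply Finset.sum_congr rfl
      intro l _
      rw [Finset.mul_sum]
      apply Finset.sum_congr rfl
      intro i hi
      rw [rw_, Finset.mem_filter] at hi
      rw [hi.2]
    rw [h6]
    have h7 : √(D : ℝ) * d = √((D * d ^ 2 : ℕ) : ℝ) := by
      push_cast
      rw [Real.sqrt_mul hDr.le, Real.sqrt_sq (Nat.cast_nonneg d)]
    rw [h7, Real.sqrt_lt' ]
    · exact_mod_cast h5
    · have h8 : (∑ l, a l * ∑ i ∈ rw_ row l, m i) ≠ 0 := by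
        intro h9
        rw [h9] at h5
        simp at h5
      exact_mod_cast Nat.pos_of_ne_zero h8

/-- the regular side -/
theorem reg_row (hk : 3 ≤ k) (hc : 2 * c ≤ (k - 1) * (k - 2)) (ha : ∀ l, 0 < a l)
    (hne : ∀ l, 1 ≤ (rw_ row l).card) (hm : ∀ i, m i + 1 ≤ a (row i))
    (h1 : ∀ l, k * a l < d + 3)
    (h2 : ∑ l, a l * max (k * ((rw_ row l).card * a l)) (d + 3) < k * (d + 3) ^ 2) :
    GenDim d m (vdim d m) ∧ 0 ≤ vdim d m := by
  have hcl := cells k row a hk hc ha hne
  refine allReg k d m _ _ _ _ _ hcl (fun i => ⟨row i, ?_⟩) ?_ ?_ ?_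
  · rw [rw_, Finset.mem_filter]
    exact ⟨Finset.mem_univ _, rfl⟩
  · intro i
    rw [min_self]
    exact_mod_cast hm i
  · intro l
    exact_mod_cast h1 l
  · have hkr : (0 : ℝ) < k := by
      have : 0 < k := by omega
      exact_mod_cast this
    have h3 : ∀ l, (a l : ℝ) * max (((rw_ row l).card : ℝ) * a l) (((d : ℝ) + 3) / k) =
        ((a l * max (k * ((rw_ row l).card * a l)) (d + 3) : ℕ) : ℝ) / k := by
      intro l
      rw [Nat.cast_mul, Nat.cast_max, mul_div_assoc, ← max_div_div_right hkr.le]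
      congr 2
      · push_cast
        field_simp
      · push_cast
        ring
    simp only [h3]
    rw [← Finset.sum_div, div_lt_iff₀ hkr]
    have h4 : ((∑ l, a l * max (k * ((rw_ row l).card * a l)) (d + 3) : ℕ) : ℝ) <
        ((k * (d + 3) ^ 2 : ℕ) : ℝ) := by exact_mod_cast h2
    push_cast at h4 ⊢
    linarith

end

end Pool.Agent.Helper90.UC
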